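import Pool.Agent.H17.Ideals.Basic

/-!
# The `𝔅`-LRP implies that `𝔅` is right-accessible
-/

set_option autoImplicit false
set_option maxSynthPendingDepth 3
set_option linter.style.haveILetI false
set_option linter.unusedVariables false
set_option linter.deprecated false

open scoped ENNReal
open MeasureTheory Filter Topology

universe u

namespace Pool.Agent.H17.Ideals

variable {𝕜 : Type} [RCLike 𝕜]

section Net

variable (𝕜) (Y : Type u) [NormedAddCommGroup Y] [NormedSpace 𝕜 Y]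

/-- The directed set of finite-dimensional subspaces of `Y`. -/
def FS : Type u := {N : Submodule 𝕜 Y // FiniteDimensional 𝕜 N}

instance : LE (FS 𝕜 Y) := ⟨fun M N => M.1 ≤ N.1⟩

instance : Preorder (FS 𝕜 Y) where
  le_refl M := le_refl M.1
  le_trans M N P h1 h2 := le_trans (α := Submodule 𝕜 Y) h1 h2

instance : Nonempty (FS 𝕜 Y) := ⟨⟨⊥, inferInstance⟩⟩

instance (N : FS 𝕜 Y) : FiniteDimensional 𝕜 N.1 := N.2

instance : IsDirectedOrder (FS 𝕜 Y) where
  directed M N := by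
    haveI := M.2
    haveI := N.2
    exact ⟨⟨M.1 ⊔ N.1, inferInstance⟩, (le_sup_left : M.1 ≤ M.1 ⊔ N.1),
      (le_sup_right : N.1 ≤ M.1 ⊔ N.1)⟩

instance : (atTop : Filter (FS 𝕜 Y)).NeBot := by
  haveI : Nonempty (FS 𝕜 Y) := inferInstance
  exact atTop_neBot

/-- The `ℓ_∞`-product of the finite-dimensional subspaces. -/
abbrev FProd : Type u := lp (fun N : FS 𝕜 Y => N.1) ∞

/-- The pairs `((y_N), y)` with `y_N → y` along the finite-dimensional subspaces. -/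
def convSub : Submodule 𝕜 (FProd 𝕜 Y × Y) where
  carrier := {p | Tendsto (fun N => ((p.1 N : N.1) : Y)) atTop (𝓝 p.2)}
  add_mem' {p q} hp hq := by
    have : (fun N : FS 𝕜 Y => (((p + q).1 N : N.1) : Y)) =
        fun N => ((p.1 N : N.1) : Y) + ((q.1 N : N.1) : Y) := by
      ext N
      simp
    simp only [Set.mem_setOf_eq] at *
    rw [this]
    exact hp.add hq
  zero_mem' := by
    simp only [Set.mem_setOf_eq]
    have : (fun N : FS 𝕜 Y => (((0 : FProd 𝕜 Y × Y).1 N : N.1) : Y)) = fun _ => 0 := by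
      ext N
      simp
    rw [this]
    exact tendsto_const_nhds
  smul_mem' c p hp := by
    have : (fun N : FS 𝕜 Y => (((c • p).1 N : N.1) : Y)) =
        fun N => c • ((p.1 N : N.1) : Y) := by
      ext N
      simp
    simp only [Set.mem_setOf_eq] at *
    rw [this]
    exact hp.const_smul c

theorem mem_convSub {p : FProd 𝕜 Y × Y} :
    p ∈ convSub 𝕜 Y ↔ Tendsto (fun N => ((p.1 N : N.1) : Y)) atTop (𝓝 p.2) := Iff.rfl

theorem isClosed_convSub : IsClosed (convSub 𝕜 Y : Set (FProd 𝕜 Y × Y)) := by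
  rw [← closure_subset_iff_isClosed]
  intro p hp
  rw [SetLike.mem_coe, mem_convSub, Metric.tendsto_nhds]
  intro ε hε
  obtain ⟨q, hq, hpq⟩ := Metric.mem_closure_iff.mp hp (ε / 3) (by positivity)
  rw [SetLike.mem_coe, mem_convSub, Metric.tendsto_nhds] at hq
  filter_upwards [hq (ε / 3) (by positivity)] with N hN
  have h1 : ‖p.1 - q.1‖ < ε / 3 := by
    refine lt_of_le_of_lt ?_ hpq
    rw [dist_eq_norm, Prod.norm_def]
    exact le_max_left _ _
  have h2 : ‖p.2 - q.2‖ < ε / 3 := by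
    refine lt_of_le_of_lt ?_ hpq
    rw [dist_eq_norm, Prod.norm_def]
    exact le_max_right _ _
  have h3 : ‖((p.1 N : N.1) : Y) - ((q.1 N : N.1) : Y)‖ < ε / 3 := by
    refine lt_of_le_of_lt ?_ h1
    have := lp.norm_apply_le_norm ENNReal.top_ne_zero (p.1 - q.1) N
    simpa using this
  rw [dist_eq_norm] at hN ⊢
  have h4 : ((p.1 N : N.1) : Y) - p.2 = (((p.1 N : N.1) : Y) - ((q.1 N : N.1) : Y)) +
      (((q.1 N : N.1) : Y) - q.2) - (p.2 - q.2) := by abel
  rw [h4]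
  calc _ ≤ ‖(((p.1 N : N.1) : Y) - ((q.1 N : N.1) : Y))‖ + ‖(((q.1 N : N.1) : Y) - q.2)‖ +
        ‖p.2 - q.2‖ := (norm_sub_le _ _).trans (by gcongr; exact norm_add_le _ _)
    _ < ε := by linarith

instance [CompleteSpace Y] : CompleteSpace (convSub 𝕜 Y) :=
  haveI : ∀ N : FS 𝕜 Y, CompleteSpace N.1 := fun N => inferInstance
  (isClosed_convSub 𝕜 Y).completeSpace_coe

variable {𝕜 Y}

open Classical in
/-- the function `N ↦ y` if `F ≤ N` and `y ∈ N`, and `0` otherwise -/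
noncomputable def tauFun (F : FS 𝕜 Y) (y : Y) (N : FS 𝕜 Y) : N.1 :=
  if h : F ≤ N ∧ y ∈ N.1 then ⟨y, h.2⟩ else 0

theorem norm_tauFun_le (F : FS 𝕜 Y) (y : Y) (N : FS 𝕜 Y) : ‖tauFun F y N‖ ≤ ‖y‖ := by
  unfold tauFun
  split_ifs with h
  · simp
  · simp

theorem tauFun_memℓp (F : FS 𝕜 Y) (y : Y) : Memℓp (tauFun F y) ∞ := by
  apply memℓp_infty
  exact ⟨‖y‖, by rintro _ ⟨N, rfl⟩; exact norm_tauFun_le F y N⟩

theorem tauFun_eq (F : FS 𝕜 Y) (y : Y) {N : FS 𝕜 Y} (h1 : F ≤ N) (h2 : y ∈ N.1) :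
    ((tauFun F y N : N.1) : Y) = y := by
  unfold tauFun
  rw [dif_pos ⟨h1, h2⟩]

theorem exists_ge_mem (F : FS 𝕜 Y) (y : Y) : ∃ G : FS 𝕜 Y, F ≤ G ∧ y ∈ G.1 := by
  haveI := F.2
  exact ⟨⟨F.1 ⊔ Submodule.span 𝕜 {y}, inferInstance⟩,
    (le_sup_left : F.1 ≤ F.1 ⊔ Submodule.span 𝕜 {y}),
    Submodule.mem_sup_right (Submodule.mem_span_singleton_self y)⟩

theorem eventually_ge_mem (F : FS 𝕜 Y) (y : Y) :
    ∀ᶠ N : FS 𝕜 Y in atTop, F ≤ N ∧ y ∈ N.1 := by
  obtain ⟨G, hG1, hG2⟩ := exists_ge_mem F y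
  filter_upwards [eventually_ge_atTop G] with N hN
  exact ⟨le_trans hG1 hN, hN hG2⟩

/-- `τ_F(y) = ((y 1_{F ≤ N, y ∈ N})_N, y)`. -/
noncomputable def tau (F : FS 𝕜 Y) (y : Y) : convSub 𝕜 Y :=
  ⟨(⟨tauFun F y, tauFun_memℓp F y⟩, y), by
    rw [mem_convSub]
    refine tendsto_nhds_of_eventually_eq ?_
    filter_upwards [eventually_ge_mem F y] with N hN
    exact tauFun_eq F y hN.1 hN.2⟩

theorem norm_tau_le (F : FS 𝕜 Y) (y : Y) : ‖tau F y‖ ≤ ‖y‖ := by
  show ‖((⟨tauFun F y, tauFun_memℓp F y⟩, y) : FProd 𝕜 Y × Y)‖ ≤ ‖y‖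
  rw [Prod.norm_def]
  refine max_le ?_ le_rfl
  exact lp.norm_le_of_forall_le (norm_nonneg _) fun N => norm_tauFun_le F y N

theorem tau_add (F : FS 𝕜 Y) {y z : Y} (hy : y ∈ F.1) (hz : z ∈ F.1) :
    tau F (y + z) = tau F y + tau F z := by
  apply Subtype.ext
  refine Prod.ext ?_ rfl
  apply Subtype.ext
  funext N
  apply Subtype.ext
  show ((tauFun F (y + z) N : N.1) : Y) = ((tauFun F y N : N.1) : Y) + ((tauFun F z N : N.1) : Y)
  by_cases h : F ≤ N
  · rw [tauFun_eq F _ h (h hy), tauFun_eq F _ h (h hz),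
      tauFun_eq F _ h (h (F.1.add_mem hy hz))]
  · unfold tauFun
    rw [dif_neg (fun h' => h h'.1), dif_neg (fun h' => h h'.1), dif_neg (fun h' => h h'.1)]
    simp

theorem tau_smul (F : FS 𝕜 Y) (c : 𝕜) {y : Y} (hy : y ∈ F.1) :
    tau F (c • y) = c • tau F y := by
  apply Subtype.ext
  refine Prod.ext ?_ rfl
  apply Subtype.ext
  funext N
  apply Subtype.ext
  show ((tauFun F (c • y) N : N.1) : Y) = c • ((tauFun F y N : N.1) : Y)
  by_cases h : F ≤ N
  · rw [tauFun_eq F _ h (h hy), tauFun_eq F _ h (h (F.1.smul_mem c hy))]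
  · unfold tauFun
    rw [dif_neg (fun h' => h h'.1), dif_neg (fun h' => h h'.1)]
    simp

/-- An ultrafilter on the directed set of finite-dimensional subspaces. -/
noncomputable def ultra (𝕜 : Type) [RCLike 𝕜] (Y : Type u) [NormedAddCommGroup Y]
    [NormedSpace 𝕜 Y] : Ultrafilter (FS 𝕜 Y) :=
  Ultrafilter.of atTop

theorem ultra_le : (ultra 𝕜 Y : Filter (FS 𝕜 Y)) ≤ atTop := Ultrafilter.of_le _

/-- bounded scalar functions converge along an ultrafilter -/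
theorem exists_lim {ι : Type*} (U : Ultrafilter ι) (f : ι → 𝕜) (C : ℝ) (hf : ∀ i, ‖f i‖ ≤ C) :
    ∃ a, ‖a‖ ≤ C ∧ Tendsto f U (𝓝 a) := by
  have h1 : IsCompact (Metric.closedBall (0 : 𝕜) C) := isCompact_closedBall _ _
  obtain ⟨a, ha, hle⟩ := h1.ultrafilter_le_nhds (U.map f) (by
    rw [Ultrafilter.coe_map, Filter.le_principal_iff, Filter.mem_map]
    filter_upwards with i
    simpa using hf i)
  exact ⟨a, by simpa using ha, hle⟩

theorem exists_lim_tau (y : Y) (z' : StrongDual 𝕜 (convSub 𝕜 Y)) :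
    ∃ a, ‖a‖ ≤ ‖z'‖ * ‖y‖ ∧ Tendsto (fun F => z' (tau F y)) (ultra 𝕜 Y) (𝓝 a) := by
  refine exists_lim _ _ _ fun F => ?_
  exact (z'.le_opNorm _).trans (by gcongr; exact norm_tau_le F y)

/-- the limit of `z'(τ_F(y))` -/
noncomputable def sigmaFun (y : Y) (z' : StrongDual 𝕜 (convSub 𝕜 Y)) : 𝕜 :=
  (exists_lim_tau y z').choose

theorem norm_sigmaFun_le (y : Y) (z' : StrongDual 𝕜 (convSub 𝕜 Y)) :
    ‖sigmaFun y z'‖ ≤ ‖z'‖ * ‖y‖ := (exists_lim_tau y z').choose_spec.1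

theorem tendsto_sigmaFun (y : Y) (z' : StrongDual 𝕜 (convSub 𝕜 Y)) :
    Tendsto (fun F => z' (tau F y)) (ultra 𝕜 Y) (𝓝 (sigmaFun y z')) :=
  (exists_lim_tau y z').choose_spec.2

/-- The contraction `σ : Y → Z''`. -/
noncomputable def sigma (𝕜 : Type) [RCLike 𝕜] (Y : Type u) [NormedAddCommGroup Y]
    [NormedSpace 𝕜 Y] : Y →L[𝕜] StrongDual 𝕜 (StrongDual 𝕜 (convSub 𝕜 Y)) :=
  LinearMap.mkContinuous₂ (LinearMap.mk₂ 𝕜 (sigmaFun (𝕜 := 𝕜) (Y := Y))
    (by
      intro y z z'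
      refine tendsto_nhds_unique (tendsto_sigmaFun (y + z) z') ?_
      have h := (tendsto_sigmaFun y z').add (tendsto_sigmaFun z z')
      refine h.congr' ?_
      have h1 := ultra_le (𝕜 := 𝕜) (Y := Y) (eventually_ge_mem ⟨⊥, inferInstance⟩ y)
      have h2 := ultra_le (𝕜 := 𝕜) (Y := Y) (eventually_ge_mem ⟨⊥, inferInstance⟩ z)
      filter_upwards [h1, h2] with F hF1 hF2
      rw [tau_add F hF1.2 hF2.2, map_add])
    (by
      intro c y z'
      refine tendsto_nhds_unique (tendsto_sigmaFun (c • y) z') ?_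
      have h := (tendsto_sigmaFun y z').const_smul c
      refine h.congr' ?_
      have h1 := ultra_le (𝕜 := 𝕜) (Y := Y) (eventually_ge_mem ⟨⊥, inferInstance⟩ y)
      filter_upwards [h1] with F hF1
      rw [tau_smul F c hF1.2, map_smul])
    (by
      intro y z' w'
      refine tendsto_nhds_unique (tendsto_sigmaFun y (z' + w')) ?_
      exact (tendsto_sigmaFun y z').add (tendsto_sigmaFun y w'))
    (by
      intro c y z'
      refine tendsto_nhds_unique (tendsto_sigmaFun y (c • z')) ?_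
      exact (tendsto_sigmaFun y z').const_smul c)) 1
    (by
      intro y z'
      rw [one_mul, mul_comm]
      exact norm_sigmaFun_le y z')

theorem sigma_apply (y : Y) (z' : StrongDual 𝕜 (convSub 𝕜 Y)) :
    sigma 𝕜 Y y z' = sigmaFun y z' := rfl

theorem norm_sigma_le : ‖sigma 𝕜 Y‖ ≤ 1 :=
  LinearMap.mkContinuous₂_norm_le _ zero_le_one _

/-- The limit map `q : Z → Y`. -/
noncomputable def qmap (𝕜 : Type) [RCLike 𝕜] (Y : Type u) [NormedAddCommGroup Y]
    [NormedSpace 𝕜 Y] : convSub 𝕜 Y →L[𝕜] Y :=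
  (ContinuousLinearMap.snd 𝕜 (FProd 𝕜 Y) Y) ∘L (convSub 𝕜 Y).subtypeL

theorem qmap_apply (z : convSub 𝕜 Y) : qmap 𝕜 Y z = z.1.2 := rfl

theorem sigma_comp_qmap (y : Y) (y' : StrongDual 𝕜 Y) :
    sigma 𝕜 Y y (y' ∘L qmap 𝕜 Y) = y' y := by
  rw [sigma_apply]
  refine tendsto_nhds_unique (tendsto_sigmaFun y _) ?_
  have : (fun F : FS 𝕜 Y => (y' ∘L qmap 𝕜 Y) (tau F y)) = fun _ => y' y := by
    funext F
    rfl
  rw [this]
  exact tendsto_const_nhds

/-- The coordinate projection `Z → N`. -/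
noncomputable def proj (N : FS 𝕜 Y) : convSub 𝕜 Y →L[𝕜] N.1 :=
  LinearMap.mkContinuous
    { toFun := fun z => z.1.1 N
      map_add' := fun z w => by simp
      map_smul' := fun c z => by simp } 1 (fun z => by
        rw [one_mul]
        refine (lp.norm_apply_le_norm ENNReal.top_ne_zero z.1.1 N).trans ?_
        show ‖z.1.1‖ ≤ ‖z.1‖
        rw [Prod.norm_def]
        exact le_max_left _ _)

theorem proj_apply (N : FS 𝕜 Y) (z : convSub 𝕜 Y) : proj N z = z.1.1 N := rfl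

theorem norm_proj_le (N : FS 𝕜 Y) : ‖proj N‖ ≤ 1 :=
  LinearMap.mkContinuous_norm_le _ zero_le_one _

theorem tendsto_proj (z : convSub 𝕜 Y) :
    Tendsto (fun N => ((proj N z : N.1) : Y)) atTop (𝓝 (qmap 𝕜 Y z)) := z.2

end Net

theorem enorm_le_one_of_norm_le_one {E : Type*} [SeminormedAddCommGroup E] {x : E}
    (h : ‖x‖ ≤ 1) : ‖x‖ₑ ≤ 1 := by
  rw [← ofReal_norm]
  calc ENNReal.ofReal ‖x‖ ≤ ENNReal.ofReal 1 := ENNReal.ofReal_le_ofReal h
    _ = 1 := by simp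

/-- The Banach space `Z` of the convergent families. -/
noncomputable abbrev ZBan (Y : Ban.{u} 𝕜) : Ban.{u} 𝕜 := ⟨convSub 𝕜 Y⟩

/-- A member of the directed set as a finite-dimensional subspace. -/
abbrev FS.fin {Y : Ban.{u} 𝕜} (N : FS 𝕜 Y) : Y.FinSub := ⟨N.1, N.2⟩

/-- `proj` as an operator between Banach spaces. -/
noncomputable abbrev projBan {Y : Ban.{u} 𝕜} (N : FS 𝕜 Y) : Op (ZBan Y) N.fin.ban := proj N

/-- `sigma` as an operator between Banach spaces. -/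
noncomputable abbrev sigmaBan (Y : Ban.{u} 𝕜) : Op Y (ZBan Y).dual.dual := sigma 𝕜 Y

/-- **The `𝔅`-LRP implies that `𝔅` is right-accessible.** -/
theorem rightAccessible_of_LRP (B : BanachIdeal.{u} 𝕜) (hB : B.LRP) : B.RightAccessible := by
  classical
  intro E Y _ T₀ δ hδ
  by_cases h0 : B.nrm T₀ = 0
  · have : T₀ = 0 := eq_zero_of_nrm_eq_zero B h0
    subst this
    exact ⟨⟨⊥, inferInstance⟩, 0, by ext; simp, by rw [nrm_zero]; exact bot_le⟩
  -- basis of E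
  set b := Module.finBasis 𝕜 E with hb
  obtain ⟨C, hC0, hC⟩ := exists_const_nrm_le B b
  have hfin : B.nrm T₀ ≠ ∞ := by
    have h1 : ∀ i, ‖T₀ (b i)‖ ≤ ∑ j, ‖T₀ (b j)‖ := fun i =>
      Finset.single_le_sum (f := fun j => ‖T₀ (b j)‖) (fun j _ => norm_nonneg _)
        (Finset.mem_univ i)
    exact ((hC Y T₀ _ h1).trans_lt ENNReal.ofReal_lt_top).ne
  letI : NormedSpace ℝ Y := NormedSpace.restrictScalars ℝ 𝕜 Y
  haveI : IsScalarTower ℝ 𝕜 Y := inferInstance
  -- the real value of the norm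
  obtain ⟨c₀, hc₀, hc₀'⟩ : ∃ c₀ : ℝ, 0 < c₀ ∧ B.nrm T₀ = ENNReal.ofReal c₀ :=
    ⟨(B.nrm T₀).toReal, ENNReal.toReal_pos h0 hfin, (ENNReal.ofReal_toReal hfin).symm⟩
  -- the convex set
  set K : ℝ≥0∞ := ENNReal.ofReal (1 + δ / 2) * B.nrm T₀ with hK
  set S₀ : Set (Fin (Module.finrank 𝕜 E) → Y) :=
    {v | ∃ S : Op E (ZBan Y), B.nrm S ≤ K ∧ v = fun i => qmap 𝕜 Y (S (b i))} with hS₀
  have hconv : Convex ℝ S₀ := by
    rintro v ⟨S, hS, rfl⟩ w ⟨S', hS', rfl⟩ s t hs ht hst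
    refine ⟨(s : 𝕜) • S + (t : 𝕜) • S', ?_, ?_⟩
    · refine (B.nrm_add_le _ _).trans ?_
      rw [B.nrm_smul, B.nrm_smul]
      have e1 : ‖(s : 𝕜)‖ₑ = ENNReal.ofReal s := by
        rw [← ofReal_norm, RCLike.norm_ofReal, abs_of_nonneg hs]
      have e2 : ‖(t : 𝕜)‖ₑ = ENNReal.ofReal t := by
        rw [← ofReal_norm, RCLike.norm_ofReal, abs_of_nonneg ht]
      rw [e1, e2]
      calc ENNReal.ofReal s * B.nrm S + ENNReal.ofReal t * B.nrm S'
          ≤ ENNReal.ofReal s * K + ENNReal.ofReal t * K := by gcongr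
        _ = K := by
          rw [← add_mul, ← ENNReal.ofReal_add hs ht, hst]
          simp
    · funext i
      simp only [Pi.add_apply, Pi.smul_apply, ContinuousLinearMap.add_apply,
        ContinuousLinearMap.smul_apply, map_add, map_smul]
      rw [RCLike.real_smul_eq_coe_smul (K := 𝕜) s, RCLike.real_smul_eq_coe_smul (K := 𝕜) t]
  have hmem : (fun i => T₀ (b i)) ∈ closure S₀ := by
    refine mem_closure_of_functionals (𝕜 := 𝕜) hconv _ ?_
    intro f
    have hF : FiniteDimensional 𝕜 (Submodule.span 𝕜 (Set.range fun i => f i ∘L qmap 𝕜 Y)) :=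
      FiniteDimensional.span_of_finite 𝕜 (Set.finite_range _)
    set F : (ZBan Y).dual.FinSub :=
      ⟨Submodule.span 𝕜 (Set.range fun i => f i ∘L qmap 𝕜 Y), hF⟩ with hF'
    obtain ⟨S, hS1, hS2, -⟩ := hB F (δ / 2) (by positivity) ((sigmaBan Y).comp T₀)
    refine ⟨fun i => qmap 𝕜 Y (S (b i)), ⟨S, ?_, rfl⟩, ?_⟩
    · refine hS1.trans ?_
      rw [hK]
      gcongr
      refine (nrm_comp_left_le B _ _).trans ?_
      calc ‖sigma 𝕜 Y‖ₑ * B.nrm T₀ ≤ 1 * B.nrm T₀ := by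
            gcongr
            exact enorm_le_one_of_norm_le_one norm_sigma_le
        _ = _ := one_mul _
    · refine Finset.sum_congr rfl fun i _ => ?_
      have h1 := hS2 (b i) ⟨f i ∘L qmap 𝕜 Y, Submodule.subset_span ⟨i, rfl⟩⟩
      have h2 : (sigma 𝕜 Y (T₀ (b i))) (f i ∘L qmap 𝕜 Y) = f i (T₀ (b i)) :=
        sigma_comp_qmap _ _
      exact h1.trans h2
  -- choose η
  set η : ℝ := δ / 2 * c₀ / (C + 1) / 2 with hη
  have hηpos : 0 < η := by positivity
  obtain ⟨v, ⟨S, hS, rfl⟩, hv⟩ := Metric.mem_closure_iff.mp hmem η hηpos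
  have hv' : ∀ i, ‖T₀ (b i) - qmap 𝕜 Y (S (b i))‖ < η := by
    intro i
    have h1 := (dist_pi_lt_iff hηpos).mp hv i
    rwa [dist_eq_norm] at h1
  -- choose N
  have hev1 : ∀ i, ∀ᶠ N : FS 𝕜 Y in atTop,
      ‖((proj N (S (b i)) : N.1) : Y) - qmap 𝕜 Y (S (b i))‖ < η := by
    intro i
    have h1 := tendsto_proj (S (b i))
    rw [Metric.tendsto_nhds] at h1
    simpa [dist_eq_norm] using h1 η hηpos
  have hev2 : ∀ i, ∀ᶠ N : FS 𝕜 Y in atTop, T₀ (b i) ∈ N.1 := fun i =>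
    (eventually_ge_mem ⟨⊥, inferInstance⟩ (T₀ (b i))).mono fun N hN => hN.2
  obtain ⟨N, hN1, hN2⟩ := ((eventually_all.mpr hev1).and (eventually_all.mpr hev2)).exists
  have hrange : ∀ x, T₀ x ∈ N.1 := by
    intro x
    rw [← b.sum_repr x, map_sum]
    refine N.1.sum_mem fun i _ => ?_
    rw [map_smul]
    exact N.1.smul_mem _ (hN2 i)
  set T₁ : Op E N.fin.ban := ContinuousLinearMap.codRestrict T₀ N.1 hrange with hT₁
  refine ⟨N.fin, T₁, by ext x; rfl, ?_⟩
  have hdecomp : T₁ = (projBan N).comp S + (T₁ - (projBan N).comp S) := by abel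
  rw [hdecomp]
  refine (B.nrm_add_le _ _).trans ?_
  have hA : B.nrm ((projBan N).comp S) ≤ K := by
    refine (nrm_comp_left_le B _ _).trans ?_
    calc ‖proj N‖ₑ * B.nrm S ≤ 1 * K := by
          gcongr
          exact enorm_le_one_of_norm_le_one (norm_proj_le N)
      _ = K := one_mul _
  have hD : B.nrm (T₁ - (projBan N).comp S) ≤ ENNReal.ofReal (C * (2 * η)) := by
    refine hC _ _ _ fun i => ?_
    have h1 : ((((T₁ - (projBan N).comp S) (b i) : N.1)) : Y) =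
        (T₀ (b i) - qmap 𝕜 Y (S (b i))) - (((proj N (S (b i)) : N.1) : Y) -
          qmap 𝕜 Y (S (b i))) := by
      have h2 : ((((T₁ - (projBan N).comp S) (b i) : N.1)) : Y) = T₀ (b i) -
        ((proj N (S (b i)) : N.1) : Y) := rfl
      rw [h2]
      abel
    change ‖((((T₁ - (projBan N).comp S) (b i) : N.1)) : Y)‖ ≤ 2 * η
    rw [h1]
    refine (norm_sub_le _ _).trans ?_
    linarith [hv' i, hN1 i]
  calc B.nrm ((projBan N).comp S) + B.nrm (T₁ - (projBan N).comp S)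
      ≤ K + ENNReal.ofReal (C * (2 * η)) := by gcongr
    _ ≤ ENNReal.ofReal (1 + δ) * B.nrm T₀ := by
      rw [hK, hc₀', ← ENNReal.ofReal_mul (by positivity), ← ENNReal.ofReal_mul (by positivity),
        ← ENNReal.ofReal_add (by positivity) (by positivity)]
      refine ENNReal.ofReal_le_ofReal ?_
      have h1 : C * (2 * η) ≤ δ / 2 * c₀ := by
        have h2 : C * (2 * η) = (C / (C + 1)) * (δ / 2 * c₀) := by
          rw [hη]
          field_simp
        rw [h2]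
        have h3 : C / (C + 1) ≤ 1 := by
          rw [div_le_one (by positivity)]
          linarith
        calc C / (C + 1) * (δ / 2 * c₀) ≤ 1 * (δ / 2 * c₀) := by gcongr
          _ = _ := one_mul _
      nlinarith

end Pool.Agent.H17.Ideals
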