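import Pool.Agent.H17.Ideals.Defs

/-!
# Basic facts on Banach ideals
-/

set_option autoImplicit false
set_option maxSynthPendingDepth 3

open scoped ENNReal
open MeasureTheory Filter Topology

universe u

namespace Pool.Agent.H17.Ideals

variable {𝕜 : Type} [RCLike 𝕜]

section

variable {X Y Z : Ban.{u} 𝕜}

theorem enorm_id_le {E : Type*} [NormedAddCommGroup E] [NormedSpace 𝕜 E] :
    ‖ContinuousLinearMap.id 𝕜 E‖ₑ ≤ 1 := by
  rw [← ofReal_norm]
  have := ContinuousLinearMap.norm_id_le (𝕜 := 𝕜) (E := E)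
  calc ENNReal.ofReal ‖ContinuousLinearMap.id 𝕜 E‖ ≤ ENNReal.ofReal 1 :=
        ENNReal.ofReal_le_ofReal this
    _ = 1 := by simp

theorem nrm_comp_left_le (B : BanachIdeal.{u} 𝕜) (R : Op Y Z) (S : Op X Y) :
    B.nrm (R.comp S) ≤ ‖R‖ₑ * B.nrm S := by
  have h := B.nrm_comp_le R S (ContinuousLinearMap.id 𝕜 X)
  have h2 : S.comp (ContinuousLinearMap.id 𝕜 X : Op X X) = S := rfl
  rw [h2] at h
  refine h.trans ?_
  calc ‖R‖ₑ * B.nrm S * ‖ContinuousLinearMap.id 𝕜 X‖ₑ ≤ ‖R‖ₑ * B.nrm S * 1 := by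
        gcongr; exact enorm_id_le
    _ = _ := mul_one _

theorem nrm_comp_right_le (B : BanachIdeal.{u} 𝕜) (S : Op Y Z) (T : Op X Y) :
    B.nrm (S.comp T) ≤ B.nrm S * ‖T‖ₑ := by
  have h := B.nrm_comp_le (ContinuousLinearMap.id 𝕜 Z : Op Z Z) S T
  have h2 : Op.comp (ContinuousLinearMap.id 𝕜 Z : Op Z Z) (S.comp T) = S.comp T := rfl
  rw [h2] at h
  refine h.trans ?_
  calc ‖ContinuousLinearMap.id 𝕜 Z‖ₑ * B.nrm S * ‖T‖ₑ ≤ 1 * B.nrm S * ‖T‖ₑ := by
        gcongr; exact enorm_id_le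
    _ = _ := by rw [one_mul]

theorem nrm_zero (B : BanachIdeal.{u} 𝕜) : B.nrm (0 : Op X Y) = 0 := by
  have h := B.nrm_smul (0 : 𝕜) (0 : Op X Y)
  simpa using h

theorem nrm_sum_le (B : BanachIdeal.{u} 𝕜) {ι : Type*} (s : Finset ι) (T : ι → Op X Y) :
    B.nrm (∑ i ∈ s, T i) ≤ ∑ i ∈ s, B.nrm (T i) := by
  classical
  induction s using Finset.induction_on with
  | empty => simp [nrm_zero]
  | insert a s ha ih =>
    rw [Finset.sum_insert ha, Finset.sum_insert ha]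
    exact (B.nrm_add_le _ _).trans (by gcongr)

theorem eq_zero_of_nrm_eq_zero (B : BanachIdeal.{u} 𝕜) {T : Op X Y} (h : B.nrm T = 0) :
    T = 0 := by
  by_contra hT
  obtain ⟨x, hx⟩ : ∃ x, T x ≠ 0 := by
    by_contra hcon
    push Not at hcon
    exact hT (ContinuousLinearMap.ext hcon)
  have hx0 : x ≠ 0 := by
    rintro rfl
    simp at hx
  obtain ⟨x', -, hx'⟩ := exists_dual_vector 𝕜 x (norm_ne_zero_iff.mpr hx0)
  obtain ⟨y', -, hy'⟩ := exists_dual_vector 𝕜 (T x) (norm_ne_zero_iff.mpr hx)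
  have h1 := B.nrm_comp_le (X₀ := X) (Y₀ := Y) (y'.smulRight (T x)) T (x'.smulRight x)
  rw [h, mul_zero, zero_mul] at h1
  have h2 : Op.comp (Z := Y) (y'.smulRight (T x)) (T.comp (X := X) (x'.smulRight x)) =
      x'.smulRight ((y' (T x)) • T x) := by
    ext z
    simp
  rw [h2, B.nrm_rankOne] at h1
  have h3 : ‖x'‖ₑ * ‖(y' (T x)) • T x‖ₑ = 0 := le_antisymm h1 bot_le
  rcases mul_eq_zero.mp h3 with h4 | h4
  · have : x' = 0 := by simpa using h4
    rw [this] at hx'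
    have h5 : ‖x‖ = 0 := by
      have h6 : (0 : 𝕜) = (‖x‖ : 𝕜) := by simpa using hx'
      exact_mod_cast h6.symm
    exact hx0 (norm_eq_zero.mp h5)
  · have : (y' (T x)) • T x = 0 := by simpa using h4
    rcases smul_eq_zero.mp this with h5 | h5
    · rw [hy'] at h5
      have : ‖T x‖ = 0 := by exact_mod_cast h5
      exact hx (norm_eq_zero.mp this)
    · exact hx h5

/-- On a finite-dimensional space the ideal norm of an operator that is small on a basis is
small. -/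
theorem exists_const_nrm_le (B : BanachIdeal.{u} 𝕜) {ι : Type} [Fintype ι]
    {E : Ban.{u} 𝕜} [FiniteDimensional 𝕜 E] (b : Module.Basis ι 𝕜 E) :
    ∃ C : ℝ, 0 ≤ C ∧ ∀ (Y : Ban.{u} 𝕜)
      (D : Op E Y) (η : ℝ), (∀ i, ‖D (b i)‖ ≤ η) → B.nrm D ≤ ENNReal.ofReal (C * η) := by
  classical
  refine ⟨∑ i, ‖(b.coord i).toContinuousLinearMap‖, by positivity, ?_⟩
  intro Y D η hD
  have h1 : D = ∑ i, (b.coord i).toContinuousLinearMap.smulRight (D (b i)) := by
    ext x
    have h3 : D x = D (∑ i, b.repr x i • b i) := by rw [b.sum_repr x]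
    rw [h3, map_sum]
    simp
  have h2 : B.nrm D ≤ ∑ i, B.nrm (X := E) (Y := Y)
      ((b.coord i).toContinuousLinearMap.smulRight (D (b i))) := by
    conv_lhs => rw [h1]
    exact nrm_sum_le B _ _
  refine h2.trans ?_
  rw [Finset.sum_mul, ENNReal.ofReal_sum_of_nonneg]
  · refine Finset.sum_le_sum fun i _ => ?_
    rw [B.nrm_rankOne, ENNReal.ofReal_mul (norm_nonneg _), ofReal_norm]
    gcongr
    rw [← ofReal_norm]
    exact ENNReal.ofReal_le_ofReal (hD i)
  · intro i _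
    exact mul_nonneg (norm_nonneg _) ((norm_nonneg _).trans (hD i))

end

/-- A convex set of families whose image under every functional of the form `∑ fᵢ(vᵢ)` contains the
value at `v` has `v` in its closure. -/
theorem mem_closure_of_functionals {ι : Type*} [Fintype ι] {Y : Type*} [NormedAddCommGroup Y]
    [NormedSpace 𝕜 Y] [NormedSpace ℝ Y] [IsScalarTower ℝ 𝕜 Y] {C : Set (ι → Y)}
    (hC : Convex ℝ C) (v : ι → Y)
    (h : ∀ f : ι → (Y →L[𝕜] 𝕜), ∃ c ∈ C, ∑ i, f i (c i) = ∑ i, f i (v i)) :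
    v ∈ closure C := by
  classical
  by_contra hv
  obtain ⟨f, r, hf1, hf2⟩ := RCLike.geometric_hahn_banach_closed_point (𝕜 := 𝕜)
    hC.closure isClosed_closure hv
  have hdec : ∀ w : ι → Y, f w = ∑ i, (f ∘L ContinuousLinearMap.single 𝕜 (fun _ => Y) i) (w i) := by
    intro w
    conv_lhs => rw [← Finset.univ_sum_single w]
    rw [map_sum]
    rfl
  obtain ⟨c, hc, hc'⟩ := h fun i => f ∘L ContinuousLinearMap.single 𝕜 (fun _ => Y) i
  rw [← hdec, ← hdec] at hc'
  have h1 := hf1 c (subset_closure hc)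
  rw [hc'] at h1
  exact absurd h1 (not_lt.mpr hf2.le)

end Pool.Agent.H17.Ideals
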