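import Mathlib

/-!
# Banach operator ideals: definitions

All Banach spaces are over `𝕜 = ℝ` or `ℂ` and live in a fixed universe `u`.  An ideal `(𝔅, 𝐁)` is
encoded by its norm function `𝐁`, extended by `∞` to the operators outside `𝔅`.
-/

set_option autoImplicit false
set_option maxSynthPendingDepth 3

open scoped ENNReal
open MeasureTheory

universe u

namespace Pool.Agent.H17.Ideals

/-- A Banach space over `𝕜`. -/
structure Ban (𝕜 : Type) [RCLike 𝕜] where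
  /-- the underlying type -/
  carrier : Type u
  [group : NormedAddCommGroup carrier]
  [space : NormedSpace 𝕜 carrier]
  [complete : CompleteSpace carrier]

attribute [instance] Ban.group Ban.space Ban.complete

variable {𝕜 : Type} [RCLike 𝕜]

instance : CoeSort (Ban.{u} 𝕜) (Type u) := ⟨Ban.carrier⟩

/-- `𝔏(X, Y)`: the bounded linear operators from `X` to `Y`. -/
abbrev Op (X Y : Ban.{u} 𝕜) : Type u := X →L[𝕜] Y

/-- The value `T x`. -/
abbrev Op.app {X Y : Ban.{u} 𝕜} (T : Op X Y) (x : X) : Y := T x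

/-- The dual Banach space `X'`. -/
noncomputable abbrev Ban.dual (X : Ban.{u} 𝕜) : Ban.{u} 𝕜 := ⟨X →L[𝕜] 𝕜⟩

/-- The canonical embedding `j_Y : Y → Y''`. -/
noncomputable def Ban.j (Y : Ban.{u} 𝕜) : Op Y Y.dual.dual :=
  NormedSpace.inclusionInDoubleDual 𝕜 Y

/-- The value `⟨x, x'⟩` of the functional `x' ∈ X'` at `x ∈ X`. -/
abbrev Ban.pair {X : Ban.{u} 𝕜} (x : X) (x' : X.dual) : 𝕜 := x' x

/-- The Banach space `L_∞(μ)`. -/
noncomputable abbrev Ban.LInfty {Ω : Type u} [MeasurableSpace Ω] (μ : Measure Ω) : Ban.{u} 𝕜 := ⟨Lp 𝕜 ∞ μ⟩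

/-- The finite-dimensional subspaces of `X`. -/
abbrev Ban.FinSub (X : Ban.{u} 𝕜) : Type u := {M : Submodule 𝕜 X // FiniteDimensional 𝕜 M}

/-- The closed finite-codimensional subspaces of `Y`. -/
abbrev Ban.CofinSub (Y : Ban.{u} 𝕜) : Type u :=
  {L : Submodule 𝕜 Y // IsClosed (L : Set Y) ∧ FiniteDimensional 𝕜 (Y ⧸ L)}

/-- A finite-dimensional subspace `M` as a Banach space. -/
noncomputable abbrev Ban.FinSub.ban {X : Ban.{u} 𝕜} (M : X.FinSub) : Ban.{u} 𝕜 :=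
  haveI := M.2
  haveI : CompleteSpace M.1 := FiniteDimensional.complete 𝕜 M.1
  ⟨M.1⟩

/-- The quotient `Y / L` as a Banach space. -/
noncomputable abbrev Ban.CofinSub.ban {Y : Ban.{u} 𝕜} (L : Y.CofinSub) : Ban.{u} 𝕜 :=
  haveI := L.2.1
  ⟨Y ⧸ L.1⟩

/-- The inclusion `J_M^X : M → X`. -/
noncomputable def Ban.FinSub.incl {X : Ban.{u} 𝕜} (M : X.FinSub) : Op M.ban X := M.1.subtypeL

/-- The quotient map `Q_L^Y : Y → Y / L`. -/
noncomputable def Ban.CofinSub.quot {Y : Ban.{u} 𝕜} (L : Y.CofinSub) : Op Y L.ban := L.1.mkQL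

/-- The composition `A R`. -/
abbrev Op.comp {X Y Z : Ban.{u} 𝕜} (A : Op Y Z) (R : Op X Y) : Op X Z :=
  ContinuousLinearMap.comp A R

/-- The operator `T` has finite rank. -/
def Op.FiniteRank {X Y : Ban.{u} 𝕜} (T : Op X Y) : Prop := FiniteDimensional 𝕜 T.range

/-- The trace of an operator on a finite-dimensional space. -/
noncomputable def Op.tr {X : Ban.{u} 𝕜} (T : Op X X) : 𝕜 := LinearMap.trace 𝕜 X T.toLinearMap

/-- Functions assigning to every bounded operator between Banach spaces a value in `[0, ∞]`. -/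
abbrev OpFun (𝕜 : Type) [RCLike 𝕜] := ∀ {X Y : Ban.{u} 𝕜}, Op X Y → ℝ≥0∞

/-- Rank one operators `x' ⊗ y` have value `‖x'‖ ‖y‖`. -/
def OpFun.RankOne (nrm : OpFun.{u} 𝕜) : Prop :=
  ∀ {X Y : Ban.{u} 𝕜} (x' : X.dual) (y : Y),
    nrm (X := X) (Y := Y) (ContinuousLinearMap.smulRight x' y) = ‖x'‖ₑ * ‖y‖ₑ

/-- The triangle inequality. -/
def OpFun.Triangle (nrm : OpFun.{u} 𝕜) : Prop :=
  ∀ {X Y : Ban.{u} 𝕜} (S T : Op X Y), nrm (S + T) ≤ nrm S + nrm T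

/-- Homogeneity. -/
def OpFun.Homogeneous (nrm : OpFun.{u} 𝕜) : Prop :=
  ∀ {X Y : Ban.{u} 𝕜} (c : 𝕜) (T : Op X Y), nrm (c • T) = ‖c‖ₑ * nrm T

/-- The ideal property `𝐁(R S T) ≤ ‖R‖ 𝐁(S) ‖T‖`. -/
def OpFun.IdealProperty (nrm : OpFun.{u} 𝕜) : Prop :=
  ∀ {X₀ X Y Y₀ : Ban.{u} 𝕜} (R : Op Y Y₀) (S : Op X Y) (T : Op X₀ X),
    nrm (R.comp (S.comp T)) ≤ ‖R‖ₑ * nrm S * ‖T‖ₑ

/-- Completeness: every sequence in the ideal that is Cauchy for the ideal norm converges for the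
ideal norm to an operator in the ideal. -/
def OpFun.Complete (nrm : OpFun.{u} 𝕜) : Prop :=
  ∀ {X Y : Ban.{u} 𝕜} (T : ℕ → Op X Y), (∀ n, nrm (T n) < ∞) →
    (∀ δ : ℝ≥0∞, 0 < δ → ∃ n, ∀ m, n ≤ m → nrm (T m - T n) ≤ δ) →
    ∃ S : Op X Y, nrm S < ∞ ∧ Filter.Tendsto (fun n => nrm (T n - S)) Filter.atTop (nhds 0)

/-- A Banach operator ideal `(𝔅, 𝐁)` in Pietsch's sense.  The field `nrm` is the ideal norm `𝐁`,
extended by the value `∞` to the bounded operators that do not belong to `𝔅`; so `T ∈ 𝔅` means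
`nrm T < ∞`. -/
structure BanachIdeal (𝕜 : Type) [RCLike 𝕜] where
  /-- the ideal norm, with value `∞` off the ideal -/
  nrm : OpFun.{u} 𝕜
  nrm_rankOne : OpFun.RankOne @nrm
  nrm_add_le : OpFun.Triangle @nrm
  nrm_smul : OpFun.Homogeneous @nrm
  nrm_comp_le : OpFun.IdealProperty @nrm
  complete : OpFun.Complete @nrm

section

variable {X Y : Ban.{u} 𝕜}

/-- `Q_L^Y T J_M^X : M → Y / L`. -/
noncomputable def cutOff (T : Op X Y) (M : X.FinSub) (L : Y.CofinSub) : Op M.ban L.ban :=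
  L.quot.comp (T.comp M.incl)

/-- `𝐁*(T) = sup |tr (Q_L^Y T J_M^X S)|`, the supremum over the finite-dimensional subspaces `M` of
`X`, the closed finite-codimensional subspaces `L` of `Y` and the operators `S : Y / L → M` with
`𝐁(S) ≤ 1`.  The operator `T` belongs to the adjoint ideal `𝔅*` iff this is finite. -/
noncomputable def BanachIdeal.adjointNrm (B : BanachIdeal.{u} 𝕜) (T : Op X Y) : ℝ≥0∞ :=
  ⨆ (M : X.FinSub) (L : Y.CofinSub) (S : Op L.ban M.ban) (_ : B.nrm S ≤ 1),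
    ‖((cutOff T M L).comp S).tr‖ₑ

/-- `T ∈ 𝔏₂(X, Y)`: the operator `T` factors through a Hilbert space. -/
def FactorsThroughHilbert (T : Op X Y) : Prop :=
  ∃ (H : Type u) (_ : NormedAddCommGroup H) (_ : InnerProductSpace 𝕜 H) (_ : CompleteSpace H)
    (R : X →L[𝕜] H) (A : H →L[𝕜] Y), T = A ∘L R

/-- `𝐋_∞(T) = inf ‖A‖ ‖R‖`, the infimum over the factorizations `j_Y T = A R` through some
`L_∞(μ)`; it is `∞` if there is none, that is if `T ∉ 𝔏_∞`. -/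
noncomputable def LInftyNrm (T : Op X Y) : ℝ≥0∞ :=
  ⨅ (Ω : Type u) (_ : MeasurableSpace Ω) (μ : Measure Ω) (R : Op X (.LInfty μ))
    (A : Op (.LInfty μ) Y.dual.dual) (_ : Y.j.comp T = A.comp R), ‖A‖ₑ * ‖R‖ₑ

/-- The quasi-norm of `𝔅 ∘ 𝔏_∞`: the infimum of `𝐁(A) 𝐋_∞(R)` over the factorizations `T = A R`
with `R ∈ 𝔏_∞` and `A ∈ 𝔅`; it is `∞` if there is none. -/
noncomputable def BanachIdeal.compLInftyNrm (B : BanachIdeal.{u} 𝕜) (T : Op X Y) : ℝ≥0∞ :=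
  ⨅ (W : Ban.{u} 𝕜) (R : Op X W) (A : Op W Y) (_ : T = A.comp R) (_ : LInftyNrm R < ∞)
    (_ : B.nrm A < ∞), B.nrm A * LInftyNrm R

end

/-- `(𝔅, 𝐁)` is maximal: `T ∈ 𝔅` iff the supremum of `𝐁(Q_L^Y T J_M^X)` over finite-dimensional
`M ⊆ X` and closed finite-codimensional `L ⊆ Y` is finite, and then it equals `𝐁(T)`. -/
def BanachIdeal.Maximal (B : BanachIdeal.{u} 𝕜) : Prop :=
  ∀ {X Y : Ban.{u} 𝕜} (T : Op X Y),
    B.nrm T = ⨆ (M : X.FinSub) (L : Y.CofinSub), B.nrm (cutOff T M L)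

/-- The quasi-normed ideal `𝔅 ∘ 𝔏_∞` has property (I). -/
def BanachIdeal.CompLInftyPropertyI (B : BanachIdeal.{u} 𝕜) : Prop :=
  ∀ {X Y : Ban.{u} 𝕜} (T : Op X Y), T.FiniteRank → B.compLInftyNrm T < ∞ →
    ∀ δ : ℝ, 0 < δ → ∃ (W : Ban.{u} 𝕜) (R : Op X W) (A : Op W Y), T = A.comp R ∧
      LInftyNrm R < ∞ ∧ B.nrm A < ∞ ∧
      B.nrm A * LInftyNrm R ≤ ENNReal.ofReal (1 + δ) * B.compLInftyNrm T ∧
      A.FiniteRank

/-- The ideal `(𝔅, 𝐁)` is right-accessible. -/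
def BanachIdeal.RightAccessible (B : BanachIdeal.{u} 𝕜) : Prop :=
  ∀ {E Y : Ban.{u} 𝕜} [FiniteDimensional 𝕜 E] (T : Op E Y) (δ : ℝ), 0 < δ →
    ∃ (N : Y.FinSub) (S : Op E N.ban), T = N.incl.comp S ∧
      B.nrm S ≤ ENNReal.ofReal (1 + δ) * B.nrm T

/-- The `𝔅`-LRP (the principle of local reflexivity for the ideal `𝔅`). -/
def BanachIdeal.LRP (B : BanachIdeal.{u} 𝕜) : Prop :=
  ∀ {E Y : Ban.{u} 𝕜} [FiniteDimensional 𝕜 E] (F : Y.dual.FinSub) (δ : ℝ), 0 < δ →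
    ∀ T : Op E Y.dual.dual, ∃ S : Op E Y,
      B.nrm S ≤ ENNReal.ofReal (1 + δ) * B.nrm T ∧
      (∀ (x : E) (y' : F.ban), Ban.pair (S.app x) (F.incl.app y') =
        Ban.pair (F.incl.app y') (T.app x)) ∧
      (∀ x : E, (∃ y : Y, Y.j.app y = T.app x) → Y.j.app (S.app x) = T.app x)

/-- Rademacher cotype 2: for some constant `C` and all finite families, the sum of the `‖x i‖ ^ 2` is
at most `C` times the average of `‖∑ ± x i‖ ^ 2` over all choices of signs. -/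
def Ban.CotypeTwo (X : Ban.{u} 𝕜) : Prop :=
  ∃ C : ℝ, ∀ (n : ℕ) (x : Fin n → X),
    ∑ i, ‖x i‖ ^ 2 ≤ C * ((2 ^ n)⁻¹ * ∑ s : Fin n → ℤˣ, ‖∑ i, ((s i : ℤˣ) : ℤ) • x i‖ ^ 2)

end Pool.Agent.H17.Ideals
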