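import Pool.Agent.H17.Ideals.StepC
import Pool.Agent.H17.Pisier.Hilbert

/-!
# The `𝔅`-LRP, property (I) and factorization through a Hilbert space
-/

set_option autoImplicit false
set_option maxSynthPendingDepth 3
set_option linter.style.haveILetI false
set_option linter.unusedVariables false
set_option linter.deprecated false
set_option linter.unusedSectionVars false

open scoped ENNReal
open MeasureTheory Filter Topology

universe u

namespace Pool.Agent.H17.Ideals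

variable {𝕜 : Type} [RCLike 𝕜]

section

variable {X Y : Ban.{u} 𝕜}

theorem finiteRank_comp_left {Z : Ban.{u} 𝕜} (R : Op Y Z) {S : Op X Y} (hS : S.FiniteRank) :
    (R.comp S).FiniteRank := by
  have hS' : FiniteDimensional 𝕜 (LinearMap.range S.toLinearMap) := hS
  change FiniteDimensional 𝕜 (LinearMap.range (R.comp S : Op X Z).toLinearMap)
  refine Submodule.finiteDimensional_of_le
    (S₂ := (LinearMap.range S.toLinearMap).map R.toLinearMap) ?_
  rintro _ ⟨x, rfl⟩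
  exact ⟨S x, ⟨x, rfl⟩, rfl⟩

/-- The trace functional given by `T` is bounded on the finite rank operators. -/
theorem trace_bound (B : BanachIdeal.{u} 𝕜) (hmax : B.Maximal) (hB : B.LRP)
    (hI : B.CompLInftyPropertyI) (T : Op X Y) (hT : B.adjointNrm T < ∞) {n : ℕ}
    (x : Fin n → X) (y' : Fin n → Y.dual)
    (h : ∀ V : Op X Y, V.FiniteRank → ‖∑ i, y' i (V (x i))‖ ≤ ‖V‖) :
    ‖∑ i, y' i (T (x i))‖ ≤ 108 * (B.adjointNrm T).toReal := by
  set U : Op Y X := ∑ i, (y' i).smulRight (x i) with hU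
  have h1 : B.compLInftyNrm (X.j.comp U) ≤ 1 := compLInftyNrm_le_one B hmax x y' h
  have hUf : U.FiniteRank := by
    have : U ∈ finRankSub Y X := Submodule.sum_mem _ fun i _ => finiteRank_smulRight (y' i) (x i)
    exact this
  obtain ⟨W, R, A, hfac, hR, hA, hprod, hAf⟩ := hI (X.j.comp U) (finiteRank_comp_left _ hUf)
    (lt_of_le_of_lt h1 ENNReal.one_lt_top) 1 one_pos
  set a := (B.nrm A).toReal with ha
  set l := (LInftyNrm R).toReal with hl
  have hprod2 : a * l ≤ 2 := by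
    rw [ha, hl, ← ENNReal.toReal_mul]
    refine ENNReal.toReal_le_of_le_ofReal (by norm_num) (hprod.trans ?_)
    calc ENNReal.ofReal (1 + 1) * B.compLInftyNrm (X.j.comp U) ≤ ENNReal.ofReal (1 + 1) * 1 := by
          gcongr
      _ = ENNReal.ofReal 2 := by norm_num
  have hε : LInftyNrm R < LInftyNrm R + ENNReal.ofReal (1 / (a + 1)) := by
    refine ENNReal.lt_add_right hR.ne ?_
    have : 0 < 1 / (a + 1) := by positivity
    exact (ENNReal.ofReal_pos.mpr this).ne'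
  have hε' := hε
  conv_lhs at hε => unfold LInftyNrm
  simp only [iInf_lt_iff] at hε
  obtain ⟨Ω, m, μ, R₁, A₁, hfac₁, hlt⟩ := hε
  have h2 : ‖A₁‖ * ‖R₁‖ ≤ l + 1 / (a + 1) := by
    have h3 : ENNReal.ofReal (‖A₁‖ * ‖R₁‖) ≤ ENNReal.ofReal (l + 1 / (a + 1)) := by
      rw [ENNReal.ofReal_mul (norm_nonneg _), ofReal_norm, ofReal_norm,
        ENNReal.ofReal_add (by positivity) (by positivity), hl, ENNReal.ofReal_toReal hR.ne]
      exact hlt.le
    exact (ENNReal.ofReal_le_ofReal_iff (by positivity)).mp h3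
  have h4 := trace_estimate B hB T hT x y' R A hfac hAf hA μ R₁ A₁ hfac₁
  refine h4.trans ?_
  have h5 : a * (‖A₁‖ * ‖R₁‖) ≤ 3 := by
    calc a * (‖A₁‖ * ‖R₁‖) ≤ a * (l + 1 / (a + 1)) := by gcongr
      _ = a * l + a / (a + 1) := by ring
      _ ≤ 2 + 1 := by
          refine add_le_add hprod2 ?_
          rw [div_le_one (by positivity)]
          linarith
      _ = 3 := by norm_num
  calc 36 * (B.adjointNrm T).toReal * a * ‖A₁‖ * ‖R₁‖ =
        36 * (B.adjointNrm T).toReal * (a * (‖A₁‖ * ‖R₁‖)) := by ring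
    _ ≤ 36 * (B.adjointNrm T).toReal * 3 := by gcongr
    _ = 108 * (B.adjointNrm T).toReal := by ring

/-- The operator `T` is approximated pointwise by uniformly bounded finite rank operators. -/
theorem exists_finRank_approx (B : BanachIdeal.{u} 𝕜) (hmax : B.Maximal) (hB : B.LRP)
    (hI : B.CompLInftyPropertyI) (T : Op X Y) (hT : B.adjointNrm T < ∞) {n : ℕ}
    (x : Fin n → X) {ε : ℝ} (hε : 0 < ε) :
    ∃ V : Op X Y, V.FiniteRank ∧ ‖V‖ ≤ 108 * (B.adjointNrm T).toReal + 1 ∧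
      ∀ i, ‖V (x i) - T (x i)‖ < ε := by
  classical
  set c := 108 * (B.adjointNrm T).toReal with hc
  have hc0 : 0 ≤ c := by positivity
  letI : NormedSpace ℝ Y := NormedSpace.restrictScalars ℝ 𝕜 Y
  haveI : IsScalarTower ℝ 𝕜 Y := by
    refine ⟨fun r a x => ?_⟩
    change ((r • a) • x) = ((algebraMap ℝ 𝕜 r) • a • x)
    rw [smul_smul, Algebra.smul_def]
  have hrsmul : ∀ (r : ℝ) (y : Y), r • y = (r : 𝕜) • y := fun r y => rfl
  set C : Set (Fin n → Y) := {v | ∃ V : Op X Y, V.FiniteRank ∧ ‖V‖ ≤ c + 1 ∧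
    v = fun i => V (x i)} with hC
  have hconv : Convex ℝ C := by
    rintro _ ⟨V, hV1, hV2, rfl⟩ _ ⟨V', hV'1, hV'2, rfl⟩ s t hs ht hst
    refine ⟨(s : 𝕜) • V + (t : 𝕜) • V', ?_, ?_, ?_⟩
    · exact (finRankSub X Y).add_mem ((finRankSub X Y).smul_mem _ hV1)
        ((finRankSub X Y).smul_mem _ hV'1)
    · calc ‖(s : 𝕜) • V + (t : 𝕜) • V'‖ ≤ ‖(s : 𝕜) • V‖ + ‖(t : 𝕜) • V'‖ := norm_add_le _ _
        _ = s * ‖V‖ + t * ‖V'‖ := by
            rw [norm_smul, norm_smul, RCLike.norm_ofReal, RCLike.norm_ofReal, abs_of_nonneg hs,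
              abs_of_nonneg ht]
        _ ≤ s * (c + 1) + t * (c + 1) := by gcongr
        _ = c + 1 := by rw [← add_mul, hst, one_mul]
    · funext i
      simp only [Pi.add_apply, Pi.smul_apply, hrsmul]
      rfl
  have hcl : (fun i => T (x i)) ∈ closure C := by
    refine mem_closure_of_functionals (𝕜 := 𝕜) hconv _ fun f => ?_
    let φ : finRankSub X Y →L[𝕜] 𝕜 := ∑ i, (f i) ∘L (ContinuousLinearMap.apply 𝕜 Y (x i)) ∘L
      (finRankSub X Y).subtypeL
    have hφ : ∀ V : finRankSub X Y, φ V = ∑ i, f i (V.1 (x i)) := by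
      intro V
      simp only [φ, ContinuousLinearMap.sum_apply]
      rfl
    set τ := ∑ i, f i (T (x i)) with hτ
    have hτφ : ‖τ‖ ≤ c * ‖φ‖ := by
      refine le_of_forall_pos_le_add fun δ hδ => ?_
      set t := ‖φ‖ + δ / (c + 1) with ht
      have ht0 : 0 < t := by positivity
      have h1 := trace_bound B hmax hB hI T hT x (fun i => (((t⁻¹ : ℝ) : 𝕜) • f i : Y.dual)) (by
        intro V hV
        have h2 : ∑ i, (((t⁻¹ : ℝ) : 𝕜) • f i : Y.dual) (V (x i)) =
            ((t⁻¹ : ℝ) : 𝕜) * φ ⟨V, hV⟩ := by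
          rw [hφ, Finset.mul_sum]
          rfl
        rw [h2, norm_mul, RCLike.norm_ofReal, abs_of_pos (inv_pos.mpr ht0),
          inv_mul_le_iff₀ ht0]
        refine (φ.le_opNorm _).trans ?_
        have h3 : ‖(⟨V, hV⟩ : finRankSub X Y)‖ = ‖V‖ := rfl
        rw [h3]
        gcongr
        rw [ht]
        have : 0 < δ / (c + 1) := by positivity
        linarith)
      have h2 : ∑ i, (((t⁻¹ : ℝ) : 𝕜) • f i : Y.dual) (T (x i)) = ((t⁻¹ : ℝ) : 𝕜) * τ := by
        rw [hτ, Finset.mul_sum]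
        rfl
      rw [h2, norm_mul, RCLike.norm_ofReal, abs_of_pos (inv_pos.mpr ht0),
        inv_mul_le_iff₀ ht0] at h1
      refine h1.trans ?_
      rw [ht, ← hc]
      have h4 : δ / (c + 1) * c ≤ δ := by
        rw [div_mul_eq_mul_div, div_le_iff₀ (by positivity)]
        nlinarith
      nlinarith
    obtain ⟨V, hV1, hV2⟩ := helly (fun _ : Unit => φ) (fun _ => τ) c hc0 (by
      intro l
      simp only [Finset.univ_unique, Finset.sum_singleton, norm_mul, norm_smul]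
      calc ‖l default‖ * ‖τ‖ ≤ ‖l default‖ * (c * ‖φ‖) := by gcongr
        _ = c * (‖l default‖ * ‖φ‖) := by ring) one_pos
    refine ⟨fun i => V.1 (x i), ⟨V.1, V.2, hV1, rfl⟩, ?_⟩
    rw [← hφ]
    exact hV2 ()
  obtain ⟨v, ⟨V, hV1, hV2, rfl⟩, hv⟩ := Metric.mem_closure_iff.mp hcl ε hε
  refine ⟨V, hV1, hV2, fun i => ?_⟩
  rw [norm_sub_rev, ← dist_eq_norm]
  exact lt_of_le_of_lt (dist_le_pi_dist (fun i => T (x i)) (fun i => V (x i)) i) hv

end

open Pisier in
theorem cot_of_cotypeTwo {Y : Ban.{u} 𝕜} [NormedSpace ℝ Y] (h : Y.CotypeTwo) : ∃ C, Cot C Y := by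
  obtain ⟨C, hC⟩ := h
  refine ⟨C, fun n x => (hC n x).trans (le_of_eq ?_)⟩
  congr 1
  unfold avg
  rw [smul_eq_mul]
  congr 1
  refine Finset.sum_congr rfl fun ω _ => ?_
  congr 2
  refine Finset.sum_congr rfl fun i _ => ?_
  exact (Int.cast_smul_eq_zsmul ℝ _ _).symm

open Pisier in
theorem cot_dual_of_cotypeTwo {X : Ban.{u} 𝕜} [NormedSpace ℝ X] [IsScalarTower ℝ 𝕜 X]
    (h : X.dual.CotypeTwo) : ∃ C, Cot C (StrongDual ℝ X) := by
  obtain ⟨C, hC⟩ := h
  refine ⟨C, fun n x => ?_⟩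
  let J : StrongDual ℝ X ≃ₗᵢ[ℝ] StrongDual 𝕜 X := StrongDual.extendRCLikeₗᵢ
  have h1 := hC n (fun i => J (x i))
  have h2 : ∀ i, ‖J (x i)‖ = ‖x i‖ := fun i => J.norm_map _
  have h3 : ∀ ω : Cube n, ‖∑ i, ((ω i : ℤˣ) : ℤ) • (J (x i) : X.dual)‖ =
      ‖∑ i, sg (ω i) • x i‖ := by
    intro ω
    rw [← J.norm_map (∑ i, sg (ω i) • x i), map_sum]
    congr 1
    refine Finset.sum_congr rfl fun i _ => ?_
    rw [map_smul]
    exact (Int.cast_smul_eq_zsmul ℝ _ _).symm
  have h4 : ∑ i, ‖x i‖ ^ 2 = ∑ i, ‖J (x i)‖ ^ 2 :=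
    Finset.sum_congr rfl fun i _ => by rw [h2]
  rw [h4]
  refine h1.trans (le_of_eq ?_)
  congr 1
  unfold avg
  rw [smul_eq_mul]
  congr 1
  exact Finset.sum_congr rfl fun ω _ => by rw [h3]

open Pisier in
theorem kw_of_approx {X Y : Ban.{u} 𝕜} [NormedSpace ℝ X] [IsScalarTower ℝ 𝕜 X]
    [NormedSpace ℝ Y] [IsScalarTower ℝ 𝕜 Y] {C₁ C₂ : ℝ} (h1 : Cot C₁ (StrongDual ℝ X))
    (h2 : Cot C₂ Y) (T : Op X Y) (c : ℝ)
    (happ : ∀ (n : ℕ) (x : Fin n → X) (ε : ℝ), 0 < ε → ∃ V : Op X Y, V.FiniteRank ∧ ‖V‖ ≤ c ∧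
      ∀ i, ‖V (x i) - T (x i)‖ < ε) :
    Kw (X := X) (Y := Y) (T.restrictScalars ℝ) (pisierConst C₁ C₂ * c ^ 2) := by
  intro l l' hll
  choose V hV1 hV2 hV3 using fun k : ℕ => happ l.length l.get (1 / ((k : ℝ) + 1)) (by positivity)
  have hP : 0 ≤ pisierConst C₁ C₂ := by
    unfold pisierConst
    have := one_le_M4 (ν := gn)
    positivity
  have hb : ∀ k, (l.map fun x => ‖V k x‖ ^ 2).sum ≤
      pisierConst C₁ C₂ * c ^ 2 * (l'.map fun x => ‖x‖ ^ 2).sum := by
    intro k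
    have hfr : FiniteDimensional ℝ
        (LinearMap.range ((V k).restrictScalars ℝ : X →L[ℝ] Y).toLinearMap) := by
      have h3 : FiniteDimensional 𝕜 (LinearMap.range (V k).toLinearMap) := hV1 k
      have h4 : FiniteDimensional ℝ (LinearMap.range (V k).toLinearMap) :=
        FiniteDimensional.trans ℝ 𝕜 _
      exact h4
    obtain ⟨κ, hκ0, hκ⟩ := kw_of_finiteRank (u := ((V k).restrictScalars ℝ : X →L[ℝ] Y)) hfr
    have h5 := pisier h1 h2 hκ0 hκ l l' hll
    refine (show _ ≤ _ from h5).trans ?_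
    have h6 : 0 ≤ (l'.map fun x => ‖x‖ ^ 2).sum :=
      List.sum_nonneg (by
        intro a ha
        obtain ⟨x, -, rfl⟩ := List.mem_map.mp ha
        positivity)
    have h7 : ‖((V k).restrictScalars ℝ : X →L[ℝ] Y)‖ = ‖V k‖ := by
      exact ContinuousLinearMap.norm_restrictScalars (V k)
    rw [h7]
    gcongr
    exact hV2 k
  have hlim : Tendsto (fun k => (l.map fun x => ‖V k x‖ ^ 2).sum) atTop
      (𝓝 (l.map fun x => ‖(T.restrictScalars ℝ : X →L[ℝ] Y) x‖ ^ 2).sum) := by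
    simp only [list_sum_eq]
    refine tendsto_finset_sum _ fun i _ => ?_
    have h8 : Tendsto (fun k => V k (l.get i)) atTop (𝓝 (T (l.get i))) := by
      rw [tendsto_iff_norm_sub_tendsto_zero]
      refine squeeze_zero (fun k => norm_nonneg _) (fun k => (hV3 k i).le) ?_
      exact tendsto_one_div_add_atTop_nhds_zero_nat
    exact (h8.norm).pow 2
  exact le_of_tendsto' hlim hb

/-- If the `𝔅`-LRP holds and `𝔅 ∘ 𝔏_∞` has property (I), then every operator of `𝔅*` from a space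
whose dual has cotype 2 into a space of cotype 2 factors through a Hilbert space. -/
theorem factorsThroughHilbert_of_LRP (B : BanachIdeal.{u} 𝕜) (hmax : B.Maximal) (hB : B.LRP)
    (hI : B.CompLInftyPropertyI) {X Y : Ban.{u} 𝕜} (hX : X.dual.CotypeTwo) (hY : Y.CotypeTwo)
    (T : Op X Y) (hT : B.adjointNrm T < ∞) : FactorsThroughHilbert T := by
  letI : NormedSpace ℝ X := NormedSpace.restrictScalars ℝ 𝕜 X
  haveI : IsScalarTower ℝ 𝕜 X := by
    refine ⟨fun r a x => ?_⟩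
    change ((r • a) • x) = ((algebraMap ℝ 𝕜 r) • a • x)
    rw [smul_smul, Algebra.smul_def]
  letI : NormedSpace ℝ Y := NormedSpace.restrictScalars ℝ 𝕜 Y
  haveI : IsScalarTower ℝ 𝕜 Y := by
    refine ⟨fun r a x => ?_⟩
    change ((r • a) • x) = ((algebraMap ℝ 𝕜 r) • a • x)
    rw [smul_smul, Algebra.smul_def]
  obtain ⟨C₁, hC₁⟩ := cot_dual_of_cotypeTwo hX
  obtain ⟨C₂, hC₂⟩ := cot_of_cotypeTwo hY
  have h1 := kw_of_approx hC₁ hC₂ T (108 * (B.adjointNrm T).toReal + 1)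
    (fun n x ε hε => exists_finRank_approx B hmax hB hI T hT x hε)
  exact Pisier.factor_of_kw T _ h1

end Pool.Agent.H17.Ideals
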