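import Pool.Agent.H17.Ideals.Tools

/-!
# Finite-dimensional approximation in `L_∞(μ)` and the spaces `ℓ_∞(Γ)`
-/

set_option autoImplicit false
set_option maxSynthPendingDepth 3
set_option linter.style.haveILetI false
set_option linter.unusedVariables false
set_option linter.deprecated false
set_option linter.unusedSectionVars false

open scoped ENNReal
open MeasureTheory Filter Topology

universe u

namespace Pool.Agent.H17.Ideals

variable {𝕜 : Type} [RCLike 𝕜]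

section

variable {Ω : Type u} [MeasurableSpace Ω] {μ : Measure Ω}

theorem linf_norm_le {f : Lp 𝕜 ∞ μ} {C : ℝ} (hC : 0 ≤ C) (h : ∀ᵐ ω ∂μ, ‖f ω‖ ≤ C) :
    ‖f‖ ≤ C := by
  rw [Lp.norm_def, eLpNorm_exponent_top]
  exact ENNReal.toReal_le_of_le_ofReal hC (eLpNormEssSup_le_of_ae_bound h)

theorem linf_ae_le (f : Lp 𝕜 ∞ μ) : ∀ᵐ ω ∂μ, ‖f ω‖ ≤ ‖f‖ := by
  have h1 : ∀ᵐ ω ∂μ, ‖f ω‖ₑ ≤ eLpNormEssSup f μ := ae_le_eLpNormEssSup
  filter_upwards [h1] with ω hω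
  rw [Lp.norm_def, eLpNorm_exponent_top]
  have h2 : eLpNormEssSup f μ ≠ ∞ := by
    have := Lp.eLpNorm_ne_top f
    rwa [eLpNorm_exponent_top] at this
  have h3 := (ENNReal.toReal_le_toReal (by simp) h2).mpr hω
  simpa using h3

/-- The element of `L_∞(μ)` given by a bounded measurable function. -/
noncomputable def mkInf (μ : Measure Ω) (f : Ω → 𝕜) (hf : Measurable f) (C : ℝ)
    (h : ∀ ω, ‖f ω‖ ≤ C) : Lp 𝕜 ∞ μ :=
  (memLp_top_of_bound hf.aestronglyMeasurable C (ae_of_all _ h)).toLp f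

theorem mkInf_coe (f : Ω → 𝕜) (hf : Measurable f) (C : ℝ) (h : ∀ ω, ‖f ω‖ ≤ C) :
    mkInf μ f hf C h =ᵐ[μ] f :=
  MemLp.coeFn_toLp _

theorem norm_mkInf_le (f : Ω → 𝕜) (hf : Measurable f) (C : ℝ) (hC : 0 ≤ C)
    (h : ∀ ω, ‖f ω‖ ≤ C) : ‖mkInf μ f hf C h‖ ≤ C := by
  refine linf_norm_le hC ?_
  filter_upwards [mkInf_coe (μ := μ) f hf C h] with ω hω
  rw [hω]
  exact h ω

/-- Finitely many elements of `L_∞(μ)` are approximately fixed by a contraction that factors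
through a finite-dimensional `ℓ_∞` space. -/
theorem linf_approx {m : ℕ} (f : Fin m → Lp 𝕜 ∞ μ) {η : ℝ} (hη : 0 < η) :
    ∃ (ι : Type u) (_ : Fintype ι) (e : (ι → 𝕜) →L[𝕜] Lp 𝕜 ∞ μ) (b : Lp 𝕜 ∞ μ →L[𝕜] (ι → 𝕜)),
      ‖e‖ ≤ 1 ∧ ‖b‖ ≤ 1 ∧ ∀ k, ‖f k - e (b (f k))‖ ≤ η := by
  classical
  set G : Ω → (Fin m → 𝕜) := fun ω k => f k ω with hG
  have hGm : Measurable G := measurable_pi_lambda _ fun k => (Lp.stronglyMeasurable (f k)).measurable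
  set R : ℝ := ∑ k, ‖f k‖ with hR
  have hR0 : 0 ≤ R := by positivity
  have hGR : ∀ᵐ ω ∂μ, ‖G ω‖ ≤ R := by
    have h1 : ∀ᵐ ω ∂μ, ∀ k, ‖f k ω‖ ≤ ‖f k‖ := ae_all_iff.mpr fun k => linf_ae_le (f k)
    filter_upwards [h1] with ω hω
    refine (pi_norm_le_iff_of_nonneg hR0).mpr fun k => (hω k).trans ?_
    exact Finset.single_le_sum (f := fun k => ‖f k‖) (fun i _ => norm_nonneg _) (Finset.mem_univ k)
  -- a finite net
  set d := TopologicalSpace.denseSeq (Fin m → 𝕜) with hd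
  obtain ⟨s₀, hs₀⟩ := (isCompact_closedBall (0 : Fin m → 𝕜) R).elim_finite_subcover
    (fun k : ℕ => Metric.ball (d k) (η / 2)) (fun k => Metric.isOpen_ball) (by
      intro x _
      obtain ⟨k, hk⟩ := (TopologicalSpace.denseRange_denseSeq (Fin m → 𝕜)).exists_dist_lt x
        (half_pos hη)
      exact Set.mem_iUnion.mpr ⟨k, hk⟩)
  set N := s₀.sup id with hN
  set s : SimpleFunc Ω (Fin m → 𝕜) := (SimpleFunc.nearestPt d N).comp G hGm with hs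
  have hsG : ∀ᵐ ω ∂μ, dist (s ω) (G ω) ≤ η / 2 := by
    filter_upwards [hGR] with ω hω
    have h1 := hs₀ (show G ω ∈ Metric.closedBall 0 R by simpa using hω)
    simp only [Set.mem_iUnion, exists_prop] at h1
    obtain ⟨k, hk, hk2⟩ := h1
    have h2 : edist (SimpleFunc.nearestPt d N (G ω)) (G ω) ≤ edist (d k) (G ω) :=
      SimpleFunc.edist_nearestPt_le d (G ω) (Finset.le_sup (f := id) hk)
    rw [edist_dist, edist_dist, ENNReal.ofReal_le_ofReal_iff dist_nonneg] at h2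
    refine (show dist (s ω) (G ω) ≤ _ from h2).trans ?_
    rw [dist_comm]
    exact (Metric.mem_ball.mp hk2).le
  -- the index set
  let J : Set (Fin m → 𝕜) := {v | v ∈ s.range ∧ μ (s ⁻¹' {v}) ≠ 0}
  have hJfin : J.Finite := s.range.finite_toSet.subset fun v hv => hv.1
  haveI : Finite J := hJfin
  let ι : Type u := ULift.{u} J
  letI : Fintype ι := Fintype.ofFinite ι
  have hsJ : ∀ᵐ ω ∂μ, s ω ∈ J := by
    have h1 : {ω | ¬ s ω ∈ J} ⊆ ⋃ v ∈ s.range.filter (fun v => μ (s ⁻¹' {v}) = 0), s ⁻¹' {v} := by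
      intro ω hω
      simp only [J, Set.mem_setOf_eq, not_and, not_not] at hω
      have h2 : s ω ∈ s.range := SimpleFunc.mem_range_self s ω
      have h3 : s ω ∈ s.range.filter (fun v => μ (s ⁻¹' {v}) = 0) :=
        Finset.mem_filter.mpr ⟨h2, hω h2⟩
      exact Set.mem_biUnion (x := s ω) h3 rfl
    refine measure_mono_null h1 ?_
    refine (measure_biUnion_null_iff (Finset.countable_toSet _)).mpr ?_
    intro v hv
    exact (Finset.mem_filter.mp hv).2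
  let g : (ι → 𝕜) → (Fin m → 𝕜) → 𝕜 := fun c v => if h : v ∈ J then c ⟨⟨v, h⟩⟩ else 0
  have hgb : ∀ c v, ‖g c v‖ ≤ ‖c‖ := by
    intro c v
    by_cases h : v ∈ J
    · simp only [g, h, dif_pos]
      exact norm_le_pi_norm c _
    · simp only [g, h, dif_neg, not_false_eq_true, norm_zero, norm_nonneg]
  let E₀ : (ι → 𝕜) → Lp 𝕜 ∞ μ := fun c =>
    mkInf μ (s.map (g c)) (s.map (g c)).measurable ‖c‖ (fun ω => hgb c _)
  have hE₀ : ∀ c, E₀ c =ᵐ[μ] fun ω => g c (s ω) := fun c => mkInf_coe _ _ _ _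
  let e₀ : (ι → 𝕜) →ₗ[𝕜] Lp 𝕜 ∞ μ :=
    { toFun := E₀
      map_add' := by
        intro c c'
        refine Lp.ext ?_
        filter_upwards [hE₀ (c + c'), hE₀ c, hE₀ c', Lp.coeFn_add (E₀ c) (E₀ c')] with ω h1 h2 h3 h4
        rw [h1, h4, Pi.add_apply, h2, h3]
        by_cases h : s ω ∈ J <;> simp [g, h]
      map_smul' := by
        intro r c
        refine Lp.ext ?_
        filter_upwards [hE₀ (r • c), hE₀ c, Lp.coeFn_smul r (E₀ c)] with ω h1 h2 h4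
        rw [h1, RingHom.id_apply, h4, Pi.smul_apply, h2]
        by_cases h : s ω ∈ J <;> simp [g, h] }
  have hE₀n : ∀ c, ‖e₀ c‖ ≤ 1 * ‖c‖ := fun c => by
    have h := norm_mkInf_le (μ := μ) (s.map (g c)) (s.map (g c)).measurable ‖c‖ (norm_nonneg _)
      (fun ω => hgb c _)
    rw [one_mul]
    exact h
  let e : (ι → 𝕜) →L[𝕜] Lp 𝕜 ∞ μ := e₀.mkContinuous 1 hE₀n
  have he : ∀ c, e c =ᵐ[μ] fun ω => g c (s ω) := hE₀
  have hlow : ∀ c, ∀ i, ‖c i‖ ≤ 1 * ‖e₀ c‖ := by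
    rintro c ⟨⟨v, hv⟩⟩
    rw [one_mul]
    have h1 : ∀ᵐ ω ∂μ, ‖g c (s ω)‖ ≤ ‖e₀ c‖ := by
      filter_upwards [hE₀ c, linf_ae_le (e₀ c)] with ω h2 h3
      rw [← h2]
      exact h3
    have h2 : ∃ ω ∈ s ⁻¹' {v}, ‖g c (s ω)‖ ≤ ‖e₀ c‖ := by
      by_contra hcon
      push Not at hcon
      apply hv.2
      refine measure_mono_null (fun ω hω => ?_) h1
      exact not_le.mpr (hcon ω hω)
    obtain ⟨ω, hω, h3⟩ := h2
    have h4 : s ω = v := hω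
    rw [h4] at h3
    simpa only [g, hv, dif_pos] using h3
  choose b₀ hb₀ hb₀' using fun i : ι =>
    hb_extend e₀ (LinearMap.proj i : (ι → 𝕜) →ₗ[𝕜] 𝕜) 1 zero_le_one (fun c => hlow c i)
  let b : Lp 𝕜 ∞ μ →L[𝕜] (ι → 𝕜) := ContinuousLinearMap.pi b₀
  have hbn : ‖b‖ ≤ 1 := by
    refine ContinuousLinearMap.opNorm_le_bound _ zero_le_one fun x => ?_
    rw [one_mul]
    refine (pi_norm_le_iff_of_nonneg (norm_nonneg _)).mpr fun i => ?_
    have h1 := (b₀ i).le_opNorm x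
    have h2 : ‖b₀ i‖ * ‖x‖ ≤ 1 * ‖x‖ := by gcongr; exact hb₀ i
    rw [one_mul] at h2
    exact h1.trans h2
  have hbe : ∀ c, b (e c) = c := by
    intro c
    funext i
    exact hb₀' i c
  have hen : ‖e‖ ≤ 1 := LinearMap.mkContinuous_norm_le _ zero_le_one _
  refine ⟨ι, inferInstance, e, b, hen, hbn, ?_⟩
  intro k
  set c : ι → 𝕜 := fun v => v.down.1 k with hc
  have h1 : ‖f k - e c‖ ≤ η / 2 := by
    refine linf_norm_le (by positivity) ?_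
    filter_upwards [Lp.coeFn_sub (f k) (e c), he c, hsJ, hsG] with ω h2 h3 h4 h5
    rw [h2, Pi.sub_apply, h3]
    have h6 : g c (s ω) = s ω k := by
      simp only [g, h4, dif_pos, hc]
    rw [h6, norm_sub_rev, ← dist_eq_norm]
    exact (dist_le_pi_dist (s ω) (G ω) k).trans h5
  have h2 : f k - e (b (f k)) = (f k - e c) + e (b (e c - f k)) := by
    rw [map_sub, map_sub, hbe]
    abel
  rw [h2]
  calc ‖(f k - e c) + e (b (e c - f k))‖ ≤ ‖f k - e c‖ + ‖e (b (e c - f k))‖ := norm_add_le _ _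
    _ ≤ η / 2 + 1 * (1 * (η / 2)) := by
        refine add_le_add h1 ?_
        refine (e.le_opNorm _).trans ?_
        gcongr
        refine (b.le_opNorm _).trans ?_
        gcongr
        rw [norm_sub_rev]
        exact h1
    _ = η := by ring

end

section

/-- The space `ℓ_∞(Γ)`. -/
abbrev EllInf (𝕜 : Type) [RCLike 𝕜] (Γ : Type u) : Type u := lp (fun _ : Γ => 𝕜) ∞

/-- An element of `ℓ_∞(Γ)` given by a bounded function. -/
def mkEll {Γ : Type u} (f : Γ → 𝕜) (C : ℝ) (h : ∀ γ, ‖f γ‖ ≤ C) : EllInf 𝕜 Γ :=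
  ⟨f, memℓp_infty ⟨C, by rintro _ ⟨γ, rfl⟩; exact h γ⟩⟩

@[simp]
theorem mkEll_apply {Γ : Type u} (f : Γ → 𝕜) (C : ℝ) (h : ∀ γ, ‖f γ‖ ≤ C) (γ : Γ) :
    mkEll f C h γ = f γ := rfl

theorem ell_norm_le {Γ : Type u} (f : EllInf 𝕜 Γ) {C : ℝ} (hC : 0 ≤ C) (h : ∀ γ, ‖f γ‖ ≤ C) :
    ‖f‖ ≤ C :=
  lp.norm_le_of_forall_le hC h

theorem ell_apply_le {Γ : Type u} (f : EllInf 𝕜 Γ) (γ : Γ) : ‖f γ‖ ≤ ‖f‖ :=
  lp.norm_apply_le_norm ENNReal.top_ne_zero f γ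

/-- The space `ℓ_∞(Γ)` is an `L_∞(μ)` space. -/
theorem exists_ell_factor (𝕜 : Type) [RCLike 𝕜] (Γ : Type u) :
    ∃ (m : MeasurableSpace Γ) (μ : Measure Γ) (p : EllInf 𝕜 Γ →L[𝕜] Lp 𝕜 ∞ μ)
      (q : Lp 𝕜 ∞ μ →L[𝕜] EllInf 𝕜 Γ), ‖p‖ ≤ 1 ∧ ‖q‖ ≤ 1 ∧ ∀ f, q (p f) = f := by
  letI : MeasurableSpace Γ := ⊤
  refine ⟨⊤, Measure.count, ?_⟩
  have hae : ∀ {P : Γ → Prop}, (∀ᵐ γ ∂(Measure.count : Measure Γ), P γ) → ∀ γ, P γ := by
    intro P hP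
    exact Measure.ae_count_iff.mp hP
  let P₀ : EllInf 𝕜 Γ → Lp 𝕜 ∞ (Measure.count : Measure Γ) := fun f =>
    mkInf _ (f : Γ → 𝕜) (measurable_from_top) ‖f‖ (ell_apply_le f)
  have hP₀ : ∀ f γ, P₀ f γ = f γ := fun f => hae (mkInf_coe _ _ _ _)
  let p₀ : EllInf 𝕜 Γ →ₗ[𝕜] Lp 𝕜 ∞ (Measure.count : Measure Γ) :=
    { toFun := P₀
      map_add' := by
        intro f g
        refine Lp.ext ?_
        filter_upwards [Lp.coeFn_add (P₀ f) (P₀ g)] with γ h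
        rw [h, Pi.add_apply, hP₀, hP₀, hP₀]
        rfl
      map_smul' := by
        intro r f
        refine Lp.ext ?_
        filter_upwards [Lp.coeFn_smul r (P₀ f)] with γ h
        rw [RingHom.id_apply, h, Pi.smul_apply, hP₀, hP₀]
        rfl }
  have hp₀ : ∀ f, ‖p₀ f‖ ≤ 1 * ‖f‖ := fun f => by
    rw [one_mul]
    exact norm_mkInf_le (f : Γ → 𝕜) (measurable_from_top) ‖f‖ (norm_nonneg _) (ell_apply_le f)
  have hle : ∀ (f : Lp 𝕜 ∞ (Measure.count : Measure Γ)) (γ : Γ), ‖f γ‖ ≤ ‖f‖ := fun f =>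
    hae (linf_ae_le f)
  let Q₀ : Lp 𝕜 ∞ (Measure.count : Measure Γ) → EllInf 𝕜 Γ := fun f =>
    mkEll (fun γ => f γ) ‖f‖ (hle f)
  let q₀ : Lp 𝕜 ∞ (Measure.count : Measure Γ) →ₗ[𝕜] EllInf 𝕜 Γ :=
    { toFun := Q₀
      map_add' := by
        intro f g
        apply lp.ext
        funext γ
        have h := hae (Lp.coeFn_add f g) γ
        simp only [Q₀, mkEll_apply]
        rw [h]
        rfl
      map_smul' := by
        intro r f
        apply lp.ext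
        funext γ
        have h := hae (Lp.coeFn_smul r f) γ
        simp only [Q₀, mkEll_apply]
        rw [h]
        rfl }
  have hq₀ : ∀ f, ‖q₀ f‖ ≤ 1 * ‖f‖ := fun f => by
    rw [one_mul]
    exact ell_norm_le _ (norm_nonneg _) (hle f)
  refine ⟨p₀.mkContinuous 1 hp₀, q₀.mkContinuous 1 hq₀,
    LinearMap.mkContinuous_norm_le _ zero_le_one _, LinearMap.mkContinuous_norm_le _ zero_le_one _,
    ?_⟩
  intro f
  apply lp.ext
  funext γ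
  exact hP₀ f γ

/-- The Banach space `ℓ_∞(Γ)`. -/
noncomputable abbrev Ban.ell (𝕜 : Type) [RCLike 𝕜] (Γ : Type u) : Ban.{u} 𝕜 := ⟨EllInf 𝕜 Γ⟩

theorem norm_j_le (W : Ban.{u} 𝕜) : ‖W.j‖ ≤ 1 := NormedSpace.inclusionInDoubleDual_norm_le 𝕜 W

/-- Operators with values in `ℓ_∞(Γ)` belong to `𝔏_∞`. -/
theorem linftyNrm_ell_le (Γ : Type u) {Y : Ban.{u} 𝕜} (R : Op Y (Ban.ell 𝕜 Γ)) :
    LInftyNrm R ≤ ‖R‖ₑ := by
  obtain ⟨m, μ, p, q, hp, hq, hqp⟩ := exists_ell_factor 𝕜 Γ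
  have hfac : (Ban.ell 𝕜 Γ).j.comp R =
      Op.comp (Y := .LInfty μ) ((Ban.ell 𝕜 Γ).j.comp (X := .LInfty μ) q) (p.comp R) := by
    ext y : 1
    change (Ban.ell 𝕜 Γ).j (R y) = (Ban.ell 𝕜 Γ).j (q (p (R y)))
    rw [hqp]
  refine (iInf_le_of_le Γ <| iInf_le_of_le m <| iInf_le_of_le μ <|
    iInf_le_of_le (p.comp R) <| iInf_le_of_le ((Ban.ell 𝕜 Γ).j.comp (X := .LInfty μ) q) <|
    iInf_le_of_le hfac le_rfl).trans ?_
  have h1 : ‖((Ban.ell 𝕜 Γ).j.comp (X := .LInfty μ) q)‖ₑ ≤ 1 := by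
    rw [← ofReal_norm, ← ENNReal.ofReal_one]
    refine ENNReal.ofReal_le_ofReal ((ContinuousLinearMap.opNorm_comp_le _ _).trans ?_)
    have h2 : ‖(Ban.ell 𝕜 Γ).j‖ ≤ 1 := norm_j_le _
    calc ‖(Ban.ell 𝕜 Γ).j‖ * ‖q‖ ≤ 1 * 1 := by gcongr
      _ = 1 := one_mul 1
  have h3 : ‖(p.comp R : Op Y (.LInfty μ))‖ₑ ≤ ‖R‖ₑ := by
    rw [← ofReal_norm, ← ofReal_norm]
    refine ENNReal.ofReal_le_ofReal ((ContinuousLinearMap.opNorm_comp_le _ _).trans ?_)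
    calc ‖p‖ * ‖R‖ ≤ 1 * ‖R‖ := by gcongr
      _ = ‖R‖ := one_mul _
  calc _ ≤ 1 * ‖R‖ₑ := mul_le_mul' h1 h3
    _ = ‖R‖ₑ := one_mul _

end

end Pool.Agent.H17.Ideals
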