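import Pool.Agent.H17.Ideals.LInf

/-!
# Functionals on the finite rank operators give elements of `𝔅 ∘ 𝔏_∞`
-/

set_option autoImplicit false
set_option maxSynthPendingDepth 3
set_option linter.style.haveILetI false
set_option linter.unusedVariables false
set_option linter.deprecated false
set_option linter.unusedSectionVars false

open scoped ENNReal
open MeasureTheory Filter Topology

universe u

namespace Pool.Agent.H17.Ideals

variable {𝕜 : Type} [RCLike 𝕜]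

/-- The subspace of finite rank operators. -/
def finRankSub (X Y : Ban.{u} 𝕜) : Submodule 𝕜 (Op X Y) where
  carrier := {V | V.FiniteRank}
  add_mem' {S T} hS hT := by
    have hS' : FiniteDimensional 𝕜 (LinearMap.range S.toLinearMap) := hS
    have hT' : FiniteDimensional 𝕜 (LinearMap.range T.toLinearMap) := hT
    change FiniteDimensional 𝕜 (LinearMap.range (S + T).toLinearMap)
    refine Submodule.finiteDimensional_of_le
      (S₂ := LinearMap.range S.toLinearMap ⊔ LinearMap.range T.toLinearMap) ?_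
    rintro _ ⟨x, rfl⟩
    exact Submodule.add_mem_sup ⟨x, rfl⟩ ⟨x, rfl⟩
  zero_mem' := by
    change FiniteDimensional 𝕜 (LinearMap.range (0 : Op X Y).toLinearMap)
    refine Submodule.finiteDimensional_of_le (S₂ := (⊥ : Submodule 𝕜 Y)) ?_
    rintro _ ⟨x, rfl⟩
    simp
  smul_mem' c S hS := by
    have hS' : FiniteDimensional 𝕜 (LinearMap.range S.toLinearMap) := hS
    change FiniteDimensional 𝕜 (LinearMap.range (c • S).toLinearMap)
    refine Submodule.finiteDimensional_of_le (S₂ := LinearMap.range S.toLinearMap) ?_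
    rintro _ ⟨x, rfl⟩
    exact ⟨c • x, by simp⟩

theorem finiteRank_smulRight {X Y : Ban.{u} 𝕜} (x' : X.dual) (y : Y) :
    Op.FiniteRank (X := X) (Y := Y) (x'.smulRight y) := by
  change FiniteDimensional 𝕜 (LinearMap.range
    ((x'.smulRight y : X →L[𝕜] Y).toLinearMap))
  refine Submodule.finiteDimensional_of_le (S₂ := Submodule.span 𝕜 {y}) ?_
  rintro _ ⟨x, rfl⟩
  exact Submodule.mem_span_singleton.mpr ⟨x' x, rfl⟩

/-- Finitely many elements of `ℓ_∞(Γ)` are almost constant on the cells of a finite partition. -/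
theorem exists_retract {Γ : Type u} {m : ℕ} (f : Fin m → EllInf 𝕜 Γ) {η : ℝ} (hη : 0 < η) :
    ∃ r : Γ → Γ, (Set.range r).Finite ∧ ∀ k γ, ‖f k γ - f k (r γ)‖ ≤ η := by
  classical
  set G : Γ → (Fin m → 𝕜) := fun γ k => f k γ with hG
  set R : ℝ := ∑ k, ‖f k‖ with hR
  have hR0 : 0 ≤ R := by positivity
  have hGR : ∀ γ, G γ ∈ Metric.closedBall (0 : Fin m → 𝕜) R := by
    intro γ
    rw [mem_closedBall_zero_iff]
    refine (pi_norm_le_iff_of_nonneg hR0).mpr fun k => (ell_apply_le (f k) γ).trans ?_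
    exact Finset.single_le_sum (f := fun k => ‖f k‖) (fun i _ => norm_nonneg _) (Finset.mem_univ k)
  obtain ⟨t, ht1, ht2, ht3⟩ := (isCompact_closedBall (0 : Fin m → 𝕜) R).finite_cover_balls
    (half_pos hη)
  have hc : ∀ γ, ∃ c ∈ t, dist (G γ) c < η / 2 := by
    intro γ
    have h1 := ht3 (hGR γ)
    simp only [Set.mem_iUnion, exists_prop] at h1
    exact h1
  choose c hc1 hc2 using hc
  have hcfin : (Set.range c).Finite := ht2.subset (by rintro _ ⟨γ, rfl⟩; exact hc1 γ)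
  haveI : Finite (Set.range c) := hcfin
  let rep : Set.range c → Γ := fun v => Classical.choose v.2
  have hrep : ∀ v : Set.range c, c (rep v) = v := fun v => Classical.choose_spec v.2
  let r : Γ → Γ := fun γ => rep ⟨c γ, γ, rfl⟩
  have hr : ∀ γ, c (r γ) = c γ := fun γ => hrep _
  refine ⟨r, ?_, ?_⟩
  · refine (Set.finite_range rep).subset ?_
    rintro _ ⟨γ, rfl⟩
    exact ⟨_, rfl⟩
  · intro k γ
    have h1 : dist (G γ) (G (r γ)) ≤ η := by
      have h2 := dist_triangle (G γ) (c γ) (G (r γ))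
      have h3 := hc2 γ
      have h4 := hc2 (r γ)
      rw [hr, dist_comm] at h4
      linarith
    rw [← dist_eq_norm]
    exact (dist_le_pi_dist (G γ) (G (r γ)) k).trans h1

section

variable {Γ : Type u} {Z : Type u} [NormedAddCommGroup Z] [NormedSpace 𝕜 Z]

/-- The operator `f ↦ Φ (f · σ(·))` from `ℓ_∞(Γ)` to the dual of `Z`. -/
noncomputable def mulOp (Φ : EllInf 𝕜 Γ →L[𝕜] 𝕜) (σ : Z →L[𝕜] EllInf 𝕜 Γ) :
    EllInf 𝕜 Γ →L[𝕜] (Z →L[𝕜] 𝕜) :=
  LinearMap.mkContinuous₂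
    (LinearMap.mk₂ 𝕜 (fun (f : EllInf 𝕜 Γ) (z : Z) => Φ (f * σ z))
      (fun f g z => by rw [add_mul, map_add])
      (fun c f z => by rw [smul_mul_assoc, map_smul])
      (fun f z w => by rw [map_add, mul_add, map_add])
      (fun c f z => by rw [map_smul, mul_smul_comm, map_smul]))
    (‖Φ‖ * ‖σ‖) (fun f z => by
      calc ‖Φ (f * σ z)‖ ≤ ‖Φ‖ * ‖f * σ z‖ := Φ.le_opNorm _
        _ ≤ ‖Φ‖ * (‖f‖ * ‖σ z‖) := by gcongr; exact norm_mul_le _ _
        _ ≤ ‖Φ‖ * (‖f‖ * (‖σ‖ * ‖z‖)) := by gcongr; exact σ.le_opNorm z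
        _ = ‖Φ‖ * ‖σ‖ * ‖f‖ * ‖z‖ := by ring)

theorem mulOp_apply (Φ : EllInf 𝕜 Γ →L[𝕜] 𝕜) (σ : Z →L[𝕜] EllInf 𝕜 Γ) (f : EllInf 𝕜 Γ) (z : Z) :
    mulOp Φ σ f z = Φ (f * σ z) := rfl

/-- Composition with `r`. -/
noncomputable def compOp (𝕜 : Type) [RCLike 𝕜] {Γ : Type u} (r : Γ → Γ) :
    EllInf 𝕜 Γ →L[𝕜] EllInf 𝕜 Γ :=
  LinearMap.mkContinuous
    { toFun := fun f => mkEll (fun γ => f (r γ)) ‖f‖ (fun γ => ell_apply_le f (r γ))
      map_add' := fun f g => by apply lp.ext; funext γ; rfl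
      map_smul' := fun c f => by apply lp.ext; funext γ; rfl }
    1 (fun f => by
      rw [one_mul]
      exact ell_norm_le _ (norm_nonneg _) (fun γ => ell_apply_le f (r γ)))

theorem compOp_apply (r : Γ → Γ) (f : EllInf 𝕜 Γ) (γ : Γ) : compOp 𝕜 r f γ = f (r γ) := rfl

/-- Evaluation at a point. -/
noncomputable def evalOp (𝕜 : Type) [RCLike 𝕜] {Γ : Type u} (γ : Γ) : EllInf 𝕜 Γ →L[𝕜] 𝕜 :=
  LinearMap.mkContinuous
    { toFun := fun f => f γ
      map_add' := fun f g => rfl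
      map_smul' := fun c f => rfl }
    1 (fun f => by rw [one_mul]; exact ell_apply_le f γ)

theorem norm_evalOp_le (γ : Γ) : ‖evalOp 𝕜 γ‖ ≤ 1 := LinearMap.mkContinuous_norm_le _ zero_le_one _

/-- The indicator function of a fibre of `r`. -/
noncomputable def fibre (𝕜 : Type) [RCLike 𝕜] {Γ : Type u} (r : Γ → Γ) (t : Γ) : EllInf 𝕜 Γ := by
  classical
  exact mkEll (fun γ => if r γ = t then 1 else 0) 1 (fun γ => by split_ifs <;> simp)

theorem fibre_apply [DecidableEq Γ] (r : Γ → Γ) (t γ : Γ) :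
    fibre 𝕜 r t γ = if r γ = t then 1 else 0 := by
  unfold fibre
  simp only [mkEll_apply]
  congr

end

/-- The operator `mulOp Φ σ` on finite partitions: its ideal norm. -/
theorem nrm_mulOp_comp_le (B : BanachIdeal.{u} 𝕜) {X : Ban.{u} 𝕜} {Γ : Type u}
    (Φ : EllInf 𝕜 Γ →L[𝕜] 𝕜) (hΦ : ‖Φ‖ ≤ 1) (σ : X →L[𝕜] EllInf 𝕜 Γ) (hσ : ‖σ‖ ≤ 1)
    (r : Γ → Γ) (hr : (Set.range r).Finite) :
    B.nrm (X := .ell 𝕜 Γ) (Y := X.dual) ((mulOp Φ σ).comp (compOp 𝕜 r)) ≤ 1 := by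
  classical
  set T := hr.toFinset with hT
  have hmem : ∀ γ, r γ ∈ T := fun γ => hr.mem_toFinset.mpr ⟨γ, rfl⟩
  have h1 : ((mulOp Φ σ).comp (compOp 𝕜 r)) =
      ∑ t ∈ T, (evalOp 𝕜 t).smulRight (mulOp Φ σ (fibre 𝕜 r t)) := by
    ext f : 1
    rw [ContinuousLinearMap.comp_apply, ContinuousLinearMap.sum_apply]
    have h2 : compOp 𝕜 r f = ∑ t ∈ T, (f t) • fibre 𝕜 r t := by
      apply lp.ext
      funext γ
      rw [compOp_apply]
      have h3 : (∑ t ∈ T, (f t) • fibre 𝕜 r t) γ = ∑ t ∈ T, f t * fibre 𝕜 r t γ := by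
        have := congrFun (lp.coeFn_sum (fun t => (f t) • fibre 𝕜 r t) T) γ
        rw [this, Finset.sum_apply]
        rfl
      rw [h3, Finset.sum_eq_single (r γ)]
      · rw [fibre_apply]
        simp
      · intro t _ ht
        rw [fibre_apply, if_neg (Ne.symm ht), mul_zero]
      · intro h
        exact absurd (hmem γ) h
    rw [h2, map_sum]
    refine Finset.sum_congr rfl fun t _ => ?_
    rw [map_smul]
    rfl
  rw [h1]
  refine (nrm_sum_le B T _).trans ?_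
  have h4 : ∀ t ∈ T, B.nrm (X := .ell 𝕜 Γ) (Y := X.dual)
      ((evalOp 𝕜 t).smulRight (mulOp Φ σ (fibre 𝕜 r t))) ≤
        ENNReal.ofReal ‖mulOp Φ σ (fibre 𝕜 r t)‖ := by
    intro t _
    rw [B.nrm_rankOne, ofReal_norm]
    have h5 : ‖evalOp 𝕜 t‖ₑ ≤ 1 := by
      rw [← ofReal_norm, ← ENNReal.ofReal_one]
      exact ENNReal.ofReal_le_ofReal (norm_evalOp_le t)
    calc _ ≤ 1 * ‖mulOp Φ σ (fibre 𝕜 r t)‖ₑ := mul_le_mul' h5 le_rfl
      _ = _ := one_mul _
  refine (Finset.sum_le_sum h4).trans ?_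
  rw [← ENNReal.ofReal_sum_of_nonneg (fun t _ => norm_nonneg _), ← ENNReal.ofReal_one]
  refine ENNReal.ofReal_le_ofReal ?_
  rw [← Finset.sum_coe_sort]
  refine sum_norm_le (fun t : T => mulOp Φ σ (fibre 𝕜 r t)) 1 fun z hz => ?_
  simp only [mulOp_apply]
  rw [← map_sum]
  refine (Φ.le_opNorm _).trans ?_
  have h6 : ‖∑ t : T, fibre 𝕜 r (t : Γ) * σ (z t)‖ ≤ 1 := by
    refine ell_norm_le _ zero_le_one fun γ => ?_
    have h7 : (∑ t : T, fibre 𝕜 r (t : Γ) * σ (z t)) γ = σ (z ⟨r γ, hmem γ⟩) γ := by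
      have := congrFun (lp.coeFn_sum (fun t : T => fibre 𝕜 r (t : Γ) * σ (z t)) Finset.univ) γ
      rw [this, Finset.sum_apply, Finset.sum_eq_single (⟨r γ, hmem γ⟩ : T)]
      · change fibre 𝕜 r (r γ) γ * σ (z ⟨r γ, hmem γ⟩) γ = _
        rw [fibre_apply, if_pos rfl, one_mul]
      · intro t _ ht
        change fibre 𝕜 r (t : Γ) γ * σ (z t) γ = 0
        rw [fibre_apply, if_neg, zero_mul]
        intro h8
        exact ht (Subtype.ext h8.symm)
      · intro h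
        exact absurd (Finset.mem_univ _) h
    rw [h7]
    refine (ell_apply_le _ _).trans ((σ.le_opNorm _).trans ?_)
    calc ‖σ‖ * ‖z ⟨r γ, hmem γ⟩‖ ≤ 1 * 1 := by gcongr; exact hz _
      _ = 1 := one_mul 1
  calc ‖Φ‖ * _ ≤ 1 * 1 := mul_le_mul hΦ h6 (norm_nonneg _) zero_le_one
    _ = 1 := one_mul 1

theorem compOp_norm_le {Γ : Type u} (r : Γ → Γ) : ‖compOp 𝕜 r‖ ≤ 1 :=
  LinearMap.mkContinuous_norm_le _ zero_le_one _

theorem norm_mulOp_le {X : Ban.{u} 𝕜} {Γ : Type u}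
    (Φ : EllInf 𝕜 Γ →L[𝕜] 𝕜) (hΦ : ‖Φ‖ ≤ 1) (σ : X →L[𝕜] EllInf 𝕜 Γ) (hσ : ‖σ‖ ≤ 1) :
    ‖mulOp Φ σ‖ ≤ 1 := by
  refine (LinearMap.mkContinuous₂_norm_le _ (by positivity) _).trans ?_
  calc ‖Φ‖ * ‖σ‖ ≤ 1 * 1 := by gcongr
    _ = 1 := one_mul 1

/-- By maximality the operator `mulOp Φ σ` belongs to the ideal. -/
theorem nrm_mulOp_le (B : BanachIdeal.{u} 𝕜) (hmax : B.Maximal) {X : Ban.{u} 𝕜} {Γ : Type u}
    (Φ : EllInf 𝕜 Γ →L[𝕜] 𝕜) (hΦ : ‖Φ‖ ≤ 1) (σ : X →L[𝕜] EllInf 𝕜 Γ) (hσ : ‖σ‖ ≤ 1) :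
    B.nrm (X := .ell 𝕜 Γ) (Y := X.dual) (mulOp Φ σ) ≤ 1 := by
  classical
  rw [hmax]
  refine iSup₂_le fun M L => ?_
  haveI := M.2
  have hfd : FiniteDimensional 𝕜 M.ban := M.2
  set b : Module.Basis (Fin (Module.finrank 𝕜 M.1)) 𝕜 M.ban := Module.finBasis 𝕜 M.1 with hb
  obtain ⟨C, hC0, hC⟩ := exists_const_nrm_le B (E := M.ban) b
  -- reduce to an `η`-approximation
  refine ENNReal.le_of_forall_pos_le_add fun ε hε _ => ?_
  set η : ℝ := ε / (C + 1) with hη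
  have hη0 : 0 < η := by
    have : (0 : ℝ) < ε := hε
    positivity
  obtain ⟨r, hr1, hr2⟩ := exists_retract (fun k => (b k : EllInf 𝕜 Γ)) hη0
  set P := compOp 𝕜 r with hP
  set A := mulOp Φ σ with hA
  have hdec : cutOff (X := .ell 𝕜 Γ) (Y := X.dual) A M L =
      L.quot.comp (Op.comp (X := M.ban) (Y := .ell 𝕜 Γ) (Z := X.dual) (A.comp P) M.incl) +
      L.quot.comp (Op.comp (X := M.ban) (Y := .ell 𝕜 Γ) (Z := X.dual) A
        (M.incl - Op.comp (X := M.ban) (Y := .ell 𝕜 Γ) (Z := .ell 𝕜 Γ) P M.incl)) := by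
    ext x : 1
    change L.quot (A (M.incl x)) = L.quot (A (P (M.incl x))) +
      L.quot (A (M.incl x - P (M.incl x)))
    rw [← map_add, ← map_add]
    congr 2
    abel
  rw [hdec]
  refine (B.nrm_add_le _ _).trans (add_le_add ?_ ?_)
  · refine (nrm_comp_left_le B _ _).trans ?_
    have h1 : ‖L.quot‖ₑ ≤ 1 := by
      rw [← ofReal_norm, ← ENNReal.ofReal_one]
      refine ENNReal.ofReal_le_ofReal ?_
      refine ContinuousLinearMap.opNorm_le_bound _ zero_le_one fun x => ?_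
      rw [one_mul]
      exact Submodule.Quotient.norm_mk_le L.1 x
    have h2 : ‖M.incl‖ₑ ≤ 1 := by
      rw [← ofReal_norm, ← ENNReal.ofReal_one]
      refine ENNReal.ofReal_le_ofReal ?_
      exact Submodule.norm_subtypeL_le M.1
    exact (mul_le_mul' h1 ((nrm_comp_right_le B _ _).trans
      (mul_le_mul' (nrm_mulOp_comp_le B Φ hΦ σ hσ r hr1) h2))).trans (by norm_num)
  · have h3 := hC L.ban (L.quot.comp (Op.comp (X := M.ban) (Y := .ell 𝕜 Γ) (Z := X.dual) A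
        (M.incl - Op.comp (X := M.ban) (Y := .ell 𝕜 Γ) (Z := .ell 𝕜 Γ) P M.incl))) η (by
      intro k
      change ‖L.quot (A (M.incl (b k) - P (M.incl (b k))))‖ ≤ η
      have h4 : ‖(M.incl (b k) : EllInf 𝕜 Γ) - P (M.incl (b k))‖ ≤ η := by
        refine ell_norm_le _ hη0.le fun γ => ?_
        exact hr2 k γ
      have h5 : ‖A (M.incl (b k) - P (M.incl (b k)))‖ ≤ η := by
        refine (A.le_opNorm _).trans ?_
        calc ‖A‖ * _ ≤ 1 * η := mul_le_mul (norm_mulOp_le Φ hΦ σ hσ) h4 (norm_nonneg _) zero_le_one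
          _ = η := one_mul η
      exact (Submodule.Quotient.norm_mk_le L.1 _).trans h5)
    refine h3.trans ?_
    have h6 : C * η ≤ ε := by
      rw [hη, mul_div_assoc', div_le_iff₀ (by positivity)]
      have : (0 : ℝ) ≤ ε := ε.2
      nlinarith
    calc ENNReal.ofReal (C * η) ≤ ENNReal.ofReal ε := ENNReal.ofReal_le_ofReal h6
      _ = ε := ENNReal.ofReal_coe_nnreal

/-- If the functional `V ↦ ∑ y'ᵢ (V xᵢ)` has norm at most one on the finite rank operators, then the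
operator `j_X ∘ ∑ y'ᵢ ⊗ xᵢ` has `𝔅 ∘ 𝔏_∞` norm at most one. -/
theorem compLInftyNrm_le_one (B : BanachIdeal.{u} 𝕜) (hmax : B.Maximal) {X Y : Ban.{u} 𝕜} {n : ℕ}
    (x : Fin n → X) (y' : Fin n → Y.dual)
    (h : ∀ V : Op X Y, V.FiniteRank → ‖∑ i, y' i (V (x i))‖ ≤ ‖V‖) :
    B.compLInftyNrm (X.j.comp (∑ i, (y' i).smulRight (x i) : Op Y X)) ≤ 1 := by
  classical
  let Γ : Type u := Metric.closedBall (0 : X) 1 × Metric.closedBall (0 : Y.dual) 1
  have hx : ∀ γ : Γ, ‖(γ.1 : X)‖ ≤ 1 := fun γ => by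
    exact mem_closedBall_zero_iff.mp γ.1.2
  have hy : ∀ γ : Γ, ‖(γ.2 : Y.dual)‖ ≤ 1 := fun γ => by
    exact mem_closedBall_zero_iff.mp γ.2.2
  have hb : ∀ (V : Op X Y) (γ : Γ), ‖(γ.2 : Y.dual) (V (γ.1 : X))‖ ≤ ‖V‖ := by
    intro V γ
    calc ‖(γ.2 : Y.dual) (V (γ.1 : X))‖ ≤ ‖(γ.2 : Y.dual)‖ * ‖V (γ.1 : X)‖ :=
          ContinuousLinearMap.le_opNorm _ _
      _ ≤ 1 * (‖V‖ * 1) := by
          gcongr
          · exact hy γ
          · refine (V.le_opNorm _).trans ?_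
            gcongr
            exact hx γ
      _ = ‖V‖ := by ring
  let a : finRankSub X Y →ₗ[𝕜] EllInf 𝕜 Γ :=
    { toFun := fun V => mkEll (fun γ => (γ.2 : Y.dual) (V.1 (γ.1 : X))) ‖V.1‖ (hb V.1)
      map_add' := fun V W => by
        apply lp.ext
        funext γ
        exact map_add (γ.2 : Y.dual) _ _
      map_smul' := fun c V => by
        apply lp.ext
        funext γ
        exact map_smul (γ.2 : Y.dual) _ _ }
  have ha : ∀ V, ‖V.1‖ ≤ ‖a V‖ := by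
    intro V
    refine ContinuousLinearMap.opNorm_le_of_unit_norm (𝕜 := 𝕜) (norm_nonneg _) fun z hz => ?_
    obtain ⟨g, hg1, hg2⟩ := exists_dual_vector'' 𝕜 (V.1 z)
    have h1 := ell_apply_le (a V) (⟨⟨z, by simp [hz]⟩, ⟨g, mem_closedBall_zero_iff.mpr hg1⟩⟩ : Γ)
    have h2 : a V (⟨⟨z, by simp [hz]⟩, ⟨g, mem_closedBall_zero_iff.mpr hg1⟩⟩ : Γ) = g (V.1 z) := rfl
    rw [h2, hg2, RCLike.norm_ofReal, abs_norm] at h1
    exact h1
  let φ : finRankSub X Y →ₗ[𝕜] 𝕜 :=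
    { toFun := fun V => ∑ i, y' i (V.1 (x i))
      map_add' := fun V W => by
        rw [← Finset.sum_add_distrib]
        exact Finset.sum_congr rfl fun i _ => map_add (y' i) _ _
      map_smul' := fun c V => by
        rw [RingHom.id_apply, smul_eq_mul, Finset.mul_sum]
        exact Finset.sum_congr rfl fun i _ => map_smul (y' i) _ _ }
  obtain ⟨Φ, hΦ1, hΦ2⟩ := hb_extend a φ 1 zero_le_one (fun V => by
    rw [one_mul]
    exact (h V.1 V.2).trans (ha V))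
  let σ : X.dual →L[𝕜] EllInf 𝕜 Γ := LinearMap.mkContinuous
    { toFun := fun x' => mkEll (fun γ => x' (γ.1 : X)) ‖x'‖ (fun γ => by
        refine (x'.le_opNorm _).trans ?_
        calc ‖x'‖ * ‖(γ.1 : X)‖ ≤ ‖x'‖ * 1 := by gcongr; exact hx γ
          _ = ‖x'‖ := mul_one _)
      map_add' := fun f g => by apply lp.ext; funext γ; rfl
      map_smul' := fun c f => by apply lp.ext; funext γ; rfl }
    1 (fun x' => by
      rw [one_mul]
      exact ell_norm_le _ (norm_nonneg _) (fun γ => by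
        refine (x'.le_opNorm _).trans ?_
        calc ‖x'‖ * ‖(γ.1 : X)‖ ≤ ‖x'‖ * 1 := by gcongr; exact hx γ
          _ = ‖x'‖ := mul_one _))
  have hσ : ‖σ‖ ≤ 1 := LinearMap.mkContinuous_norm_le _ zero_le_one _
  let R₀ : Op Y (.ell 𝕜 Γ) := LinearMap.mkContinuous
    { toFun := fun y => mkEll (fun γ => (γ.2 : Y.dual) y) ‖y‖ (fun γ => by
        refine (ContinuousLinearMap.le_opNorm _ _).trans ?_
        calc ‖(γ.2 : Y.dual)‖ * ‖y‖ ≤ 1 * ‖y‖ := by gcongr; exact hy γ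
          _ = ‖y‖ := one_mul _)
      map_add' := fun f g => by
        apply lp.ext
        funext γ
        exact map_add (γ.2 : Y.dual) _ _
      map_smul' := fun c f => by
        apply lp.ext
        funext γ
        exact map_smul (γ.2 : Y.dual) _ _ }
    1 (fun y => by
      rw [one_mul]
      exact ell_norm_le _ (norm_nonneg _) (fun γ => by
        refine (ContinuousLinearMap.le_opNorm _ _).trans ?_
        calc ‖(γ.2 : Y.dual)‖ * ‖y‖ ≤ 1 * ‖y‖ := by gcongr; exact hy γ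
          _ = ‖y‖ := one_mul _))
  have hR₀ : ‖R₀‖ₑ ≤ 1 := by
    rw [← ofReal_norm, ← ENNReal.ofReal_one]
    exact ENNReal.ofReal_le_ofReal (LinearMap.mkContinuous_norm_le _ zero_le_one _)
  set A₀ : Op (.ell 𝕜 Γ) X.dual.dual := mulOp Φ σ with hA₀
  have hA : B.nrm A₀ ≤ 1 := nrm_mulOp_le B hmax (X := X.dual) Φ hΦ1 σ hσ
  have hfac : X.j.comp (∑ i, (y' i).smulRight (x i) : Op Y X) = A₀.comp R₀ := by
    ext y x'
    change x' ((∑ i, (y' i).smulRight (x i) : Op Y X) y) = Φ (R₀ y * σ x')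
    have h1 : R₀ y * σ x' = a ⟨x'.smulRight y, finiteRank_smulRight x' y⟩ := by
      apply lp.ext
      funext γ
      change (γ.2 : Y.dual) y * x' (γ.1 : X) = (γ.2 : Y.dual) (x' (γ.1 : X) • y)
      rw [map_smul, smul_eq_mul, mul_comm]
    rw [h1, hΦ2]
    change x' ((∑ i, (y' i).smulRight (x i) : Op Y X) y) = ∑ i, y' i (x' (x i) • y)
    rw [ContinuousLinearMap.sum_apply, map_sum]
    refine Finset.sum_congr rfl fun i _ => ?_
    rw [ContinuousLinearMap.smulRight_apply, map_smul, map_smul, smul_eq_mul, smul_eq_mul, mul_comm]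
  have hL : LInftyNrm R₀ ≤ 1 := (linftyNrm_ell_le Γ R₀).trans hR₀
  refine (iInf_le_of_le (Ban.ell 𝕜 Γ) <| iInf_le_of_le R₀ <| iInf_le_of_le A₀ <|
    iInf_le_of_le hfac <| iInf_le_of_le (lt_of_le_of_lt hL ENNReal.one_lt_top) <|
    iInf_le_of_le (lt_of_le_of_lt hA ENNReal.one_lt_top) le_rfl).trans ?_
  calc B.nrm A₀ * LInftyNrm R₀ ≤ 1 * 1 := mul_le_mul' hA hL
    _ = 1 := one_mul 1

end Pool.Agent.H17.Ideals
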