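import Pool.Agent.H17.Ideals.StepB
import Pool.Agent.H17.Ideals.Access

/-!
# The trace estimate
-/

set_option autoImplicit false
set_option maxSynthPendingDepth 3
set_option linter.style.haveILetI false
set_option linter.unusedVariables false
set_option linter.deprecated false
set_option linter.unusedSectionVars false

open scoped ENNReal
open MeasureTheory Filter Topology

universe u

namespace Pool.Agent.H17.Ideals

variable {𝕜 : Type} [RCLike 𝕜]

/-- The finite-dimensional space `ℓ_∞^ι`. -/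
noncomputable abbrev Ban.linf (𝕜 : Type) [RCLike 𝕜] (ι : Type u) [Fintype ι] : Ban.{u} 𝕜 :=
  ⟨ι → 𝕜⟩

/-- The kernel of an operator into a finite-dimensional space. -/
def kerCofin {Y : Ban.{u} 𝕜} {ι : Type u} [Fintype ι] (b : Y →L[𝕜] (ι → 𝕜)) : Y.CofinSub :=
  ⟨LinearMap.ker b.toLinearMap, by
    refine ⟨b.isClosed_ker, ?_⟩
    exact Module.Finite.equiv (LinearMap.quotKerEquivRange b.toLinearMap).symm⟩

/-- The induced operator on the quotient. -/
noncomputable def kerLift {Y : Ban.{u} 𝕜} {ι : Type u} [Fintype ι] (b : Y →L[𝕜] (ι → 𝕜)) :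
    Op (kerCofin b).ban (Ban.linf 𝕜 ι) :=
  haveI : FiniteDimensional 𝕜 (Y ⧸ (kerCofin b).1) := (kerCofin b).2.2
  haveI : IsClosed ((kerCofin b).1 : Set Y) := (kerCofin b).2.1
  LinearMap.toContinuousLinearMap ((kerCofin b).1.liftQ b.toLinearMap le_rfl :
    (Y ⧸ (kerCofin b).1) →ₗ[𝕜] (ι → 𝕜))

theorem kerLift_quot {Y : Ban.{u} 𝕜} {ι : Type u} [Fintype ι] (b : Y →L[𝕜] (ι → 𝕜)) (y : Y) :
    kerLift b ((kerCofin b).quot y) = b y := rfl

theorem norm_kerLift_le {Y : Ban.{u} 𝕜} {ι : Type u} [Fintype ι] (b : Y →L[𝕜] (ι → 𝕜))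
    (hb : ‖b‖ ≤ 1) : ‖kerLift b‖ ≤ 1 := by
  refine ContinuousLinearMap.opNorm_le_bound _ zero_le_one fun q => ?_
  rw [one_mul]
  refine le_of_forall_pos_le_add fun ε hε => ?_
  obtain ⟨y, hy1, hy2⟩ := Submodule.Quotient.norm_mk_lt (S := (kerCofin b).1) q hε
  have h1 : kerLift b q = b y := by
    rw [← hy1]
    rfl
  rw [h1]
  calc ‖b y‖ ≤ ‖b‖ * ‖y‖ := b.le_opNorm y
    _ ≤ 1 * ‖y‖ := by gcongr
    _ = ‖y‖ := one_mul _
    _ ≤ ‖q‖ + ε := hy2.le

/-- The trace of an operator on `ℓ_∞^ι`. -/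
theorem trace_pi {ι : Type u} [Fintype ι] [DecidableEq ι] (f : (ι → 𝕜) →ₗ[𝕜] (ι → 𝕜)) :
    LinearMap.trace 𝕜 (ι → 𝕜) f = ∑ i, f (Pi.single i 1) i := by
  rw [LinearMap.trace_eq_matrix_trace 𝕜 (Pi.basisFun 𝕜 ι), Matrix.trace]
  refine Finset.sum_congr rfl fun i _ => ?_
  rw [Matrix.diag_apply, LinearMap.toMatrix_apply]
  simp

theorem trace_kerLift {X Y : Ban.{u} 𝕜} (T : Op X Y) (M : X.FinSub) {ι : Type u} [Fintype ι]
    [DecidableEq ι] (S : Op (Ban.linf 𝕜 ι) M.ban) (b : Y →L[𝕜] (ι → 𝕜)) :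
    Op.tr ((cutOff T M (kerCofin b)).comp (S.comp (kerLift b))) =
      ∑ i, b (T (M.incl (S (Pi.single i 1)))) i := by
  haveI : FiniteDimensional 𝕜 (Y ⧸ (kerCofin b).1) := (kerCofin b).2.2
  have hfd : FiniteDimensional 𝕜 (kerCofin b).ban := (kerCofin b).2.2
  unfold Op.tr
  have h1 : (((cutOff T M (kerCofin b)).comp (S.comp (kerLift b)) :
      Op (kerCofin b).ban (kerCofin b).ban).toLinearMap :
      (kerCofin b).ban →ₗ[𝕜] (kerCofin b).ban) =
      ((cutOff T M (kerCofin b)).comp S : Op (Ban.linf 𝕜 ι) (kerCofin b).ban).toLinearMap ∘ₗ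
        (kerLift b).toLinearMap := rfl
  rw [h1, LinearMap.trace_comp_comm', trace_pi]
  rfl

theorem enorm_trace_le (B : BanachIdeal.{u} 𝕜) {X Y : Ban.{u} 𝕜} (T : Op X Y) (M : X.FinSub)
    (L : Y.CofinSub) (S : Op L.ban M.ban) (hS : B.nrm S < ∞) :
    ‖((cutOff T M L).comp S).tr‖ₑ ≤ B.nrm S * B.adjointNrm T := by
  by_cases h0 : B.nrm S = 0
  · have : S = 0 := eq_zero_of_nrm_eq_zero B h0
    subst this
    have h1 : ((cutOff T M L).comp (0 : Op L.ban M.ban)).tr = 0 := by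
      unfold Op.tr
      have : (((cutOff T M L).comp (0 : Op L.ban M.ban) : Op L.ban L.ban).toLinearMap :
        L.ban →ₗ[𝕜] L.ban) = 0 := by
        ext x
        simp
      rw [this, map_zero]
    rw [h1]
    simp
  · set r : ℝ := (B.nrm S).toReal with hr
    have hr0 : 0 < r := ENNReal.toReal_pos h0 hS.ne
    have hrS : ENNReal.ofReal r = B.nrm S := ENNReal.ofReal_toReal hS.ne
    set S₁ : Op L.ban M.ban := ((r⁻¹ : ℝ) : 𝕜) • S with hS₁
    have h1 : B.nrm S₁ ≤ 1 := by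
      rw [hS₁, B.nrm_smul, ← hrS, ← ofReal_norm, RCLike.norm_ofReal,
        abs_of_pos (inv_pos.mpr hr0), ← ENNReal.ofReal_mul (inv_pos.mpr hr0).le,
        inv_mul_cancel₀ hr0.ne', ENNReal.ofReal_one]
    have h2 : ‖((cutOff T M L).comp S₁).tr‖ₑ ≤ B.adjointNrm T :=
      le_iSup_of_le M <| le_iSup_of_le L <| le_iSup_of_le S₁ <| le_iSup_of_le h1 le_rfl
    have h3 : ((cutOff T M L).comp S).tr = (r : 𝕜) * ((cutOff T M L).comp S₁).tr := by
      unfold Op.tr
      have h4 : ((cutOff T M L).comp S₁ : Op L.ban L.ban).toLinearMap =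
          ((r⁻¹ : ℝ) : 𝕜) • ((cutOff T M L).comp S : Op L.ban L.ban).toLinearMap := by
        ext x
        simp [hS₁]
      rw [h4, map_smul, smul_eq_mul, ← mul_assoc, ← RCLike.ofReal_mul, mul_inv_cancel₀ hr0.ne',
        RCLike.ofReal_one, one_mul]
    rw [h3, enorm_mul, ← hrS]
    have h5 : ‖(r : 𝕜)‖ₑ = ENNReal.ofReal r := by
      rw [← ofReal_norm, RCLike.norm_ofReal, abs_of_pos hr0]
    rw [h5]
    gcongr

/-- The functionals `z i` on `Y` against an operator with values in a finite-dimensional subspace of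
`X`. -/
theorem adj_bound (B : BanachIdeal.{u} 𝕜) {X Y : Ban.{u} 𝕜} (T : Op X Y) (M : X.FinSub)
    {ι : Type u} [Fintype ι] [DecidableEq ι] (S : Op (Ban.linf 𝕜 ι) M.ban) (hS : B.nrm S < ∞)
    (z : ι → Y.dual) (hz : ∀ i, ‖z i‖ ≤ 1) :
    ‖∑ i, z i (T (M.incl (S (Pi.single i 1))))‖ₑ ≤ B.nrm S * B.adjointNrm T := by
  set b : Y →L[𝕜] (ι → 𝕜) := ContinuousLinearMap.pi z with hb
  have hbn : ‖b‖ ≤ 1 := by
    refine ContinuousLinearMap.opNorm_le_bound _ zero_le_one fun x => ?_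
    rw [one_mul]
    refine (pi_norm_le_iff_of_nonneg (norm_nonneg _)).mpr fun i => ?_
    have h1 := (z i).le_opNorm x
    have h2 : ‖z i‖ * ‖x‖ ≤ 1 * ‖x‖ := by gcongr; exact hz i
    rw [one_mul] at h2
    exact h1.trans h2
  have h1 := trace_kerLift T M S b
  have h2 : ∑ i, z i (T (M.incl (S (Pi.single i 1)))) =
    ∑ i, b (T (M.incl (S (Pi.single i 1)))) i := rfl
  rw [h2, ← h1]
  have h3 : B.nrm (S.comp (kerLift b)) ≤ B.nrm S := by
    refine (nrm_comp_right_le B S (kerLift b)).trans ?_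
    calc B.nrm S * ‖kerLift b‖ₑ ≤ B.nrm S * 1 := by
          gcongr
          exact enorm_le_one_of_norm_le_one (norm_kerLift_le b hbn)
      _ = B.nrm S := mul_one _
  refine (enorm_trace_le B T M (kerCofin b) (S.comp (kerLift b)) (lt_of_le_of_lt h3 hS)).trans ?_
  gcongr

/-- Testing the adjoint norm against operators into the bidual. -/
theorem adj_bound_bidual (B : BanachIdeal.{u} 𝕜) (hB : B.LRP) {X Y : Ban.{u} 𝕜} (T : Op X Y)
    {ι : Type u} [Fintype ι] [DecidableEq ι] (S₀ : Op (Ban.linf 𝕜 ι) X.dual.dual)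
    (hS : B.nrm S₀ < ∞) (z : ι → Y.dual) (hz : ∀ i, ‖z i‖ ≤ 1) :
    ‖∑ i, S₀ (Pi.single i 1) ((z i).comp T)‖ₑ ≤ 4 * B.nrm S₀ * B.adjointNrm T := by
  haveI : FiniteDimensional 𝕜 (Ban.linf 𝕜 ι) := inferInstanceAs (FiniteDimensional 𝕜 (ι → 𝕜))
  let F : X.dual.FinSub := ⟨Submodule.span 𝕜 (Set.range fun i => (z i).comp T),
    FiniteDimensional.span_of_finite 𝕜 (Set.finite_range _)⟩
  obtain ⟨S, hS1, hS2, -⟩ := hB F 1 one_pos S₀
  obtain ⟨M, S', hS'1, hS'2⟩ := rightAccessible_of_LRP B hB S 1 one_pos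
  have h2 : ENNReal.ofReal (1 + 1) = 2 := by norm_num
  rw [h2] at hS1 hS'2
  have h4 : B.nrm S' ≤ 4 * B.nrm S₀ := by
    calc B.nrm S' ≤ 2 * B.nrm S := hS'2
      _ ≤ 2 * (2 * B.nrm S₀) := by gcongr
      _ = 4 * B.nrm S₀ := by rw [← mul_assoc]; norm_num
  have hfin : B.nrm S' < ∞ := lt_of_le_of_lt h4 (ENNReal.mul_lt_top (by norm_num) hS)
  have h5 : ∀ i, S₀ (Pi.single i 1) ((z i).comp T) = z i (T (M.incl (S' (Pi.single i 1)))) := by
    intro i
    have h6 := hS2 (Pi.single i 1) ⟨(z i).comp T, Submodule.subset_span ⟨i, rfl⟩⟩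
    have h7 : S (Pi.single i 1) = M.incl (S' (Pi.single i 1)) := by
      rw [hS'1]
      rfl
    rw [← h7]
    exact h6.symm
  rw [Finset.sum_congr rfl fun i _ => h5 i]
  refine (adj_bound B T M S' hfin z hz).trans ?_
  gcongr

/-- A finite rank operator is a finite sum of rank one operators. -/
theorem finiteRank_expand {W V : Ban.{u} 𝕜} (A : Op W V) (hA : A.FiniteRank) :
    ∃ (d : ℕ) (w' : Fin d → W.dual) (v : Fin d → V), ∀ w, A w = ∑ k, w' k w • v k := by
  have hA' : FiniteDimensional 𝕜 (LinearMap.range A.toLinearMap) := hA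
  set b := Module.finBasis 𝕜 (LinearMap.range A.toLinearMap) with hb
  let A' : W →L[𝕜] LinearMap.range A.toLinearMap :=
    A.codRestrict (LinearMap.range A.toLinearMap) fun x => ⟨x, rfl⟩
  refine ⟨_, fun k => (b.coord k).toContinuousLinearMap ∘L A', fun k => (b k : V), fun w => ?_⟩
  have h1 := congrArg (Subtype.val) (b.sum_repr (A' w))
  push_cast at h1
  exact h1.symm

section

variable {X Y : Ban.{u} 𝕜}

/-- Evaluation pairing through `T`. -/
noncomputable def tPair (T : Op X Y) : (Y →L[𝕜] 𝕜) →ₗ[𝕜] X.dual.dual →ₗ[𝕜] 𝕜 :=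
  LinearMap.mk₂ 𝕜 (fun (f : Y →L[𝕜] 𝕜) (x'' : X.dual.dual) => x'' (f.comp T))
    (by intro f g x''; rw [ContinuousLinearMap.add_comp, map_add])
    (by intro c f x''; rw [ContinuousLinearMap.smul_comp, map_smul])
    (by intros; rfl) (by intros; rfl)

/-- The second adjoint `x'' ↦ x'' ∘ T'`. -/
noncomputable def biadj (T : Op X Y) (x'' : X.dual.dual) : Y.dual.dual :=
  x'' ∘L ((ContinuousLinearMap.compL 𝕜 X Y 𝕜).flip T)

theorem biadj_apply (T : Op X Y) (x'' : X.dual.dual) (f : Y.dual) :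
    biadj T x'' f = x'' (f.comp T) := rfl

/-- The core estimate. -/
theorem trace_estimate (B : BanachIdeal.{u} 𝕜) (hB : B.LRP) (T : Op X Y)
    (hT : B.adjointNrm T < ∞) {n : ℕ} (x : Fin n → X) (y' : Fin n → Y.dual)
    {W : Ban.{u} 𝕜} (R : Op Y W) (A : Op W X.dual.dual)
    (hfac : X.j.comp (∑ i, (y' i).smulRight (x i) : Op Y X) = A.comp R) (hA : A.FiniteRank)
    (hAB : B.nrm A < ∞) {Ω : Type u} [MeasurableSpace Ω] (μ : Measure Ω)
    (R₁ : Op Y (.LInfty μ)) (A₁ : Op (.LInfty μ) W.dual.dual) (hfac₁ : W.j.comp R = A₁.comp R₁) :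
    ‖∑ i, y' i (T (x i))‖ ≤
      36 * (B.adjointNrm T).toReal * (B.nrm A).toReal * ‖A₁‖ * ‖R₁‖ := by
  classical
  obtain ⟨d, w', x'', hx''⟩ := finiteRank_expand A hA
  set h : Fin d → Y.dual := fun k => (w' k).comp R with hh
  set y'' : Fin d → Y.dual.dual := fun k => biadj T (x'' k) with hy''
  -- the trace does not depend on the representation
  have htr : ∑ i, y' i (T (x i)) = ∑ k, y'' k (h k) := by
    have h1 := trace_wd₂ (V := X.dual.dual) y' (fun i => X.j (x i)) h x'' (by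
      intro y
      have h2 := congrArg (fun (P : Op Y X.dual.dual) => P y) hfac
      have h3 : (X.j.comp (∑ i, (y' i).smulRight (x i) : Op Y X)) y =
          ∑ i, y' i y • X.j (x i) := by
        change X.j ((∑ i, (y' i).smulRight (x i) : Op Y X) y) = _
        rw [ContinuousLinearMap.sum_apply, map_sum]
        refine Finset.sum_congr rfl fun i _ => ?_
        rw [ContinuousLinearMap.smulRight_apply, map_smul]
      rw [← h3]
      exact h2.trans (hx'' (R y))) (tPair T)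
    exact h1
  -- a local lifting of the functionals
  set G : Submodule 𝕜 Y.dual.dual := Submodule.span 𝕜 (Set.range y'') with hG
  haveI : FiniteDimensional 𝕜 G := FiniteDimensional.span_of_finite 𝕜 (Set.finite_range y'')
  obtain ⟨θ₃, hθ₃, hθ₃'⟩ := plr (𝕜 := 𝕜) (E := G) (Z := Y) G.subtypeL h
  have hθ₃n : ‖θ₃‖ ≤ 3 := by
    refine hθ₃.trans ?_
    have := Submodule.norm_subtypeL_le G
    linarith
  have hmem : ∀ k, y'' k ∈ G := fun k => Submodule.subset_span ⟨k, rfl⟩
  set f : Fin d → Lp 𝕜 ∞ μ := fun k => R₁ (θ₃ ⟨y'' k, hmem k⟩) with hf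
  have hhA : ∀ k y, h k y = A₁ (R₁ y) (w' k) := by
    intro k y
    have h1 := congrArg (fun (P : Op Y W.dual.dual) => P y (w' k)) hfac₁
    exact h1
  have h1 : ∑ k, y'' k (h k) = ∑ k, A₁ (f k) (w' k) := by
    refine Finset.sum_congr rfl fun k _ => ?_
    rw [← hhA]
    exact (hθ₃' ⟨y'' k, hmem k⟩ k).symm
  set β := (B.adjointNrm T).toReal with hβ
  set a := (B.nrm A).toReal with ha
  set K := 36 * β * a * ‖A₁‖ * ‖R₁‖ with hK
  -- it suffices to prove the estimate up to `η`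
  set s := ∑ k, ‖w' k‖ with hs
  have key : ∀ η : ℝ, 0 < η → ‖∑ i, y' i (T (x i))‖ ≤ K + ‖A₁‖ * s * η := by
    intro η hη
    obtain ⟨ι, hι, e, b, he, hb, hfeb⟩ := linf_approx f hη
    -- the vectors `D i`
    set D : ι → G := fun i => ∑ k, A₁ (e (Pi.single i 1)) (w' k) • ⟨y'' k, hmem k⟩ with hD
    have hDn : ∑ i, ‖(D i : Y.dual.dual)‖ ≤ 12 * β * a * ‖A₁‖ := by
      refine sum_norm_le (fun i => (D i : Y.dual.dual)) _ fun z hz => ?_
      obtain ⟨θ, hθ, hθ'⟩ := plr (𝕜 := 𝕜) (E := ι → 𝕜) (Z := W) (A₁ ∘L e) w'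
      have hθn : ‖θ‖ ≤ 3 * ‖A₁‖ := by
        refine hθ.trans ?_
        have : ‖A₁ ∘L e‖ ≤ ‖A₁‖ * 1 :=
          (ContinuousLinearMap.opNorm_comp_le _ _).trans (by gcongr)
        linarith
      set S₀ : Op (Ban.linf 𝕜 ι) X.dual.dual := Op.comp (X := Ban.linf 𝕜 ι) A θ with hS₀
      have hS₀n : B.nrm S₀ ≤ B.nrm A * ENNReal.ofReal (3 * ‖A₁‖) := by
        refine (nrm_comp_right_le B (X := Ban.linf 𝕜 ι) A θ).trans ?_
        gcongr
        rw [← ofReal_norm]
        exact ENNReal.ofReal_le_ofReal hθn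
      have hS₀fin : B.nrm S₀ < ∞ :=
        lt_of_le_of_lt hS₀n (ENNReal.mul_lt_top hAB ENNReal.ofReal_lt_top)
      have h2 := adj_bound_bidual B hB T S₀ hS₀fin z hz
      have h3 : ∀ i, (D i : Y.dual.dual) (z i) = S₀ (Pi.single i 1) ((z i).comp T) := by
        intro i
        have h4 : S₀ (Pi.single i 1) = ∑ k, A₁ (e (Pi.single i 1)) (w' k) • x'' k := by
          change A (θ (Pi.single i 1)) = _
          rw [hx'']
          refine Finset.sum_congr rfl fun k _ => ?_
          rw [hθ']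
          rfl
        rw [h4, hD]
        simp only [Submodule.coe_sum, Submodule.coe_smul, ContinuousLinearMap.sum_apply,
          ContinuousLinearMap.smul_apply]
        rfl
      rw [Finset.sum_congr rfl fun i _ => h3 i]
      have h5 : ‖∑ i, S₀ (Pi.single i 1) ((z i).comp T)‖ₑ ≤
          ENNReal.ofReal (12 * β * a * ‖A₁‖) := by
        refine h2.trans ?_
        calc 4 * B.nrm S₀ * B.adjointNrm T
            ≤ 4 * (B.nrm A * ENNReal.ofReal (3 * ‖A₁‖)) * B.adjointNrm T := by gcongr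
          _ = ENNReal.ofReal 4 * (ENNReal.ofReal a * ENNReal.ofReal (3 * ‖A₁‖)) *
                ENNReal.ofReal β := by
              rw [ha, hβ, ENNReal.ofReal_toReal hAB.ne, ENNReal.ofReal_toReal hT.ne]
              norm_num
          _ = ENNReal.ofReal (12 * β * a * ‖A₁‖) := by
              rw [← ENNReal.ofReal_mul (by positivity), ← ENNReal.ofReal_mul (by positivity),
                ← ENNReal.ofReal_mul (by positivity)]
              congr 1
              ring
      rw [← ofReal_norm] at h5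
      exact (ENNReal.ofReal_le_ofReal_iff (by positivity)).mp h5
    -- rewrite the trace
    have hsplit : ∑ k, A₁ (f k) (w' k) =
        ∑ i, b (R₁ (θ₃ (D i))) i + ∑ k, A₁ (f k - e (b (f k))) (w' k) := by
      have h6 : ∀ k, A₁ (f k) (w' k) = A₁ (e (b (f k))) (w' k) +
          A₁ (f k - e (b (f k))) (w' k) := by
        intro k
        rw [map_sub]
        simp
      rw [Finset.sum_congr rfl fun k _ => h6 k, Finset.sum_add_distrib]
      congr 1
      have h7 : ∀ c : ι → 𝕜, e c = ∑ i, c i • e (Pi.single i 1) := by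
        intro c
        conv_lhs => rw [← Finset.univ_sum_single c]
        rw [map_sum]
        refine Finset.sum_congr rfl fun i _ => ?_
        rw [← map_smul]
        congr 1
        ext j
        by_cases hij : j = i
        · subst hij
          simp
        · simp [Pi.single_eq_of_ne hij]
      have h8 : ∀ k, A₁ (e (b (f k))) (w' k) =
          ∑ i, b (f k) i * A₁ (e (Pi.single i 1)) (w' k) := by
        intro k
        rw [h7, map_sum, ContinuousLinearMap.sum_apply]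
        refine Finset.sum_congr rfl fun i _ => ?_
        rw [map_smul]
        rfl
      rw [Finset.sum_congr rfl fun k _ => h8 k, Finset.sum_comm]
      refine Finset.sum_congr rfl fun i _ => ?_
      simp only [hD, map_sum, map_smul, Finset.sum_apply, Pi.smul_apply, smul_eq_mul]
      refine Finset.sum_congr rfl fun k _ => ?_
      rw [mul_comm]
    rw [htr, h1, hsplit]
    refine (norm_add_le _ _).trans (add_le_add ?_ ?_)
    · calc ‖∑ i, b (R₁ (θ₃ (D i))) i‖ ≤ ∑ i, 3 * ‖R₁‖ * ‖(D i : Y.dual.dual)‖ := by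
            refine norm_sum_le_of_le _ fun i _ => ?_
            calc ‖b (R₁ (θ₃ (D i))) i‖ ≤ ‖b (R₁ (θ₃ (D i)))‖ := norm_le_pi_norm _ i
              _ ≤ ‖b‖ * ‖R₁ (θ₃ (D i))‖ := b.le_opNorm _
              _ ≤ 1 * (‖R₁‖ * (‖θ₃‖ * ‖D i‖)) := by
                  gcongr
                  refine (R₁.le_opNorm _).trans ?_
                  gcongr
                  exact θ₃.le_opNorm _
              _ ≤ 1 * (‖R₁‖ * (3 * ‖D i‖)) := by gcongr
              _ = 3 * ‖R₁‖ * ‖(D i : Y.dual.dual)‖ := by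
                  have : ‖D i‖ = ‖(D i : Y.dual.dual)‖ := rfl
                  rw [this]
                  ring
        _ = 3 * ‖R₁‖ * ∑ i, ‖(D i : Y.dual.dual)‖ := by rw [Finset.mul_sum]
        _ ≤ 3 * ‖R₁‖ * (12 * β * a * ‖A₁‖) := by gcongr
        _ = K := by rw [hK]; ring
    · calc ‖∑ k, A₁ (f k - e (b (f k))) (w' k)‖ ≤ ∑ k, ‖A₁‖ * η * ‖w' k‖ := by
            refine norm_sum_le_of_le _ fun k _ => ?_
            calc ‖A₁ (f k - e (b (f k))) (w' k)‖ ≤ ‖A₁ (f k - e (b (f k)))‖ * ‖w' k‖ :=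
                  ContinuousLinearMap.le_opNorm _ _
              _ ≤ (‖A₁‖ * η) * ‖w' k‖ := by
                  gcongr
                  refine (A₁.le_opNorm _).trans ?_
                  gcongr
                  exact hfeb k
        _ = ‖A₁‖ * s * η := by
            rw [← Finset.mul_sum]
            ring
  -- let `η → 0`
  refine le_of_forall_pos_le_add fun ε hε => ?_
  have h9 := key (ε / (‖A₁‖ * s + 1)) (by positivity)
  refine h9.trans ?_
  have h10 : ‖A₁‖ * s * (ε / (‖A₁‖ * s + 1)) ≤ ε := by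
    rw [mul_div_assoc', div_le_iff₀ (by positivity)]
    nlinarith [show 0 ≤ ‖A₁‖ * s by positivity]
  linarith

end

end Pool.Agent.H17.Ideals
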