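import Pool.Agent.H17.Ideals.Basic

/-!
# Hahn–Banach tools: Helly's theorem and a weak principle of local reflexivity
-/

set_option autoImplicit false
set_option maxSynthPendingDepth 3
set_option linter.style.haveILetI false
set_option linter.unusedVariables false
set_option linter.deprecated false
set_option linter.unusedSectionVars false

open scoped ENNReal
open MeasureTheory Filter Topology

universe u

namespace Pool.Agent.H17.Ideals

variable {𝕜 : Type} [RCLike 𝕜]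

/-- A form of the Hahn–Banach theorem. -/
theorem hb_extend {V : Type*} [AddCommGroup V] [Module 𝕜 V] {N : Type*} [NormedAddCommGroup N]
    [NormedSpace 𝕜 N] (a : V →ₗ[𝕜] N) (φ : V →ₗ[𝕜] 𝕜) (C : ℝ) (hC : 0 ≤ C)
    (h : ∀ v, ‖φ v‖ ≤ C * ‖a v‖) : ∃ Φ : N →L[𝕜] 𝕜, ‖Φ‖ ≤ C ∧ ∀ v, Φ (a v) = φ v := by
  have hker : LinearMap.ker a ≤ LinearMap.ker φ := by
    intro v hv
    have h1 := h v
    rw [LinearMap.mem_ker.mp hv, norm_zero, mul_zero] at h1
    exact norm_le_zero_iff.mp h1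
  set f₀ : LinearMap.range a →ₗ[𝕜] 𝕜 :=
    ((LinearMap.ker a).liftQ φ hker) ∘ₗ (a.quotKerEquivRange.symm : LinearMap.range a →ₗ[𝕜] _)
    with hf₀
  have hf : ∀ v, f₀ ⟨a v, LinearMap.mem_range_self a v⟩ = φ v := by
    intro v
    have : a.quotKerEquivRange.symm ⟨a v, LinearMap.mem_range_self a v⟩ =
        (LinearMap.ker a).mkQ v := by
      rw [LinearEquiv.symm_apply_eq]
      rfl
    rw [hf₀, LinearMap.comp_apply, LinearEquiv.coe_coe, this]
    exact Submodule.liftQ_apply _ _ _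
  set f : StrongDual 𝕜 (LinearMap.range a) := f₀.mkContinuous C (by
    rintro ⟨_, v, rfl⟩
    rw [hf]
    exact h v) with hfdef
  obtain ⟨g, hg1, hg2⟩ := exists_extension_norm_eq (LinearMap.range a) f
  refine ⟨g, ?_, ?_⟩
  · rw [hg2]
    exact LinearMap.mkContinuous_norm_le _ hC _
  · intro v
    rw [← hf v]
    exact hg1 ⟨a v, LinearMap.mem_range_self a v⟩

/-- A scalar of modulus at most one rotating `z` to its absolute value. -/
theorem exists_phase (z : 𝕜) : ∃ c : 𝕜, ‖c‖ ≤ 1 ∧ c * z = (‖z‖ : 𝕜) := by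
  by_cases hz : z = 0
  · exact ⟨0, by simp, by simp [hz]⟩
  · refine ⟨(‖z‖ : 𝕜) * z⁻¹, ?_, ?_⟩
    · rw [norm_mul, norm_inv, RCLike.norm_ofReal, abs_norm,
        mul_inv_cancel₀ (norm_ne_zero_iff.mpr hz)]
    · rw [mul_assoc, inv_mul_cancel₀ hz, mul_one]

/-- Almost norming vectors. -/
theorem exists_almost_norming {Z : Type*} [NormedAddCommGroup Z] [NormedSpace 𝕜 Z]
    (ζ : Z →L[𝕜] 𝕜) {η : ℝ} (hη : 0 < η) :
    ∃ z : Z, ‖z‖ ≤ 1 ∧ ‖ζ‖ - η ≤ ‖ζ z‖ ∧ ζ z = (‖ζ z‖ : 𝕜) := by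
  have h1 : ∃ z : Z, ‖z‖ ≤ 1 ∧ ‖ζ‖ - η ≤ ‖ζ z‖ := by
    by_contra hcon
    push Not at hcon
    by_cases hneg : ‖ζ‖ - η ≤ 0
    · have := hcon 0 (by simp)
      simp at this
      linarith
    · push Not at hneg
      have h2 : ‖ζ‖ ≤ ‖ζ‖ - η := by
        refine ContinuousLinearMap.opNorm_le_of_unit_norm (𝕜 := 𝕜) hneg.le ?_ |>.trans le_rfl
        intro z hz
        exact (hcon z hz.le).le
      linarith
  obtain ⟨z, hz1, hz2⟩ := h1
  obtain ⟨c, hc1, hc2⟩ := exists_phase (ζ z)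
  have h3 : ζ (c • z) = (‖ζ z‖ : 𝕜) := by rw [map_smul, smul_eq_mul, hc2]
  refine ⟨c • z, ?_, ?_, ?_⟩
  · rw [norm_smul]
    calc ‖c‖ * ‖z‖ ≤ 1 * 1 := by gcongr
      _ = 1 := one_mul _
  · rw [h3, RCLike.norm_ofReal, abs_norm]
    exact hz2
  · rw [h3, RCLike.norm_ofReal, abs_norm]

theorem sum_norm_le {ι : Type*} [Fintype ι] {Z : Type*} [NormedAddCommGroup Z] [NormedSpace 𝕜 Z]
    (ζ : ι → (Z →L[𝕜] 𝕜)) (C : ℝ)
    (h : ∀ z : ι → Z, (∀ i, ‖z i‖ ≤ 1) → ‖∑ i, ζ i (z i)‖ ≤ C) : ∑ i, ‖ζ i‖ ≤ C := by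
  have key : ∀ η : ℝ, 0 < η → ∑ i, ‖ζ i‖ ≤ C + Fintype.card ι * η := by
    intro η hη
    choose z hz1 hz2 hz3 using fun i => exists_almost_norming (ζ i) hη
    have h1 := h z hz1
    have h2 : ∑ i, ζ i (z i) = ((∑ i, ‖ζ i (z i)‖ : ℝ) : 𝕜) := by
      rw [RCLike.ofReal_sum]
      exact Finset.sum_congr rfl fun i _ => hz3 i
    rw [h2, RCLike.norm_ofReal, abs_of_nonneg (by positivity)] at h1
    have h3 : ∑ i, (‖ζ i‖ - η) ≤ ∑ i, ‖ζ i (z i)‖ := Finset.sum_le_sum fun i _ => hz2 i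
    rw [Finset.sum_sub_distrib, Finset.sum_const, nsmul_eq_mul] at h3
    have h4 : (Finset.univ : Finset ι).card = Fintype.card ι := rfl
    rw [h4] at h3
    linarith
  by_contra hcon
  push Not at hcon
  set d := ∑ i, ‖ζ i‖ - C with hd
  have hd0 : 0 < d := by linarith
  have h5 := key (d / (2 * (Fintype.card ι + 1))) (by positivity)
  have h6 : (Fintype.card ι : ℝ) * (d / (2 * (Fintype.card ι + 1))) ≤ d / 2 := by
    rw [mul_div_assoc', div_le_div_iff₀ (by positivity) (by positivity)]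
    nlinarith
  linarith

/-- **Helly's theorem.** -/
theorem helly {V : Type*} [NormedAddCommGroup V] [NormedSpace 𝕜 V] {κ : Type*} [Fintype κ]
    (f : κ → (V →L[𝕜] 𝕜)) (p : κ → 𝕜) (c : ℝ) (hc : 0 ≤ c)
    (h : ∀ l : κ → 𝕜, ‖∑ k, l k * p k‖ ≤ c * ‖∑ k, l k • f k‖) {η : ℝ} (hη : 0 < η) :
    ∃ x : V, ‖x‖ ≤ c + η ∧ ∀ k, f k x = p k := by
  classical
  letI : NormedSpace ℝ V := NormedSpace.restrictScalars ℝ 𝕜 V
  haveI : IsScalarTower ℝ 𝕜 V := by
    refine ⟨fun r a x => ?_⟩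
    change ((r • a) • x) = ((algebraMap ℝ 𝕜 r) • a • x)
    rw [smul_smul, Algebra.smul_def]
  let F : V →L[𝕜] (κ → 𝕜) := ContinuousLinearMap.pi f
  have hF : ∀ x k, F x k = f k x := fun x k => rfl
  -- `p` is in the closure of the image of the ball
  have hcl : p ∈ closure (F '' Metric.closedBall 0 (c + η / 2)) := by
    refine mem_closure_of_functionals (𝕜 := 𝕜) ?_ p ?_
    · have h1 : Convex ℝ (Metric.closedBall (0 : V) (c + η / 2)) := convex_closedBall _ _
      have h2 : (F : V → κ → 𝕜) = (F.restrictScalars ℝ).toLinearMap := rfl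
      rw [h2]
      exact h1.linear_image _
    · intro g
      set l : κ → 𝕜 := fun k => g k 1 with hl
      have hg : ∀ k (z : 𝕜), g k z = l k * z := by
        intro k z
        have : z = z • (1 : 𝕜) := by simp
        rw [this, map_smul, smul_eq_mul, mul_comm]
        simp [hl]
      simp only [hg]
      set G : V →L[𝕜] 𝕜 := ∑ k, l k • f k with hG
      have hGx : ∀ x, G x = ∑ k, l k * f k x := by
        intro x
        simp [hG]
      have h1 := h l
      by_cases hG0 : ‖G‖ = 0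
      · refine ⟨F 0, ⟨0, by simp; positivity, rfl⟩, ?_⟩
        rw [hG0, mul_zero] at h1
        rw [norm_le_zero_iff.mp h1]
        simp
      · have hGpos : 0 < ‖G‖ := lt_of_le_of_ne (norm_nonneg _) (Ne.symm hG0)
        set η' : ℝ := ‖G‖ * (η / 2) / (c + η / 2) with hη'
        have hη'0 : 0 < η' := by positivity
        obtain ⟨z, hz1, hz2, hz3⟩ := exists_almost_norming G hη'0
        have hz4 : ‖G‖ * c / (c + η / 2) ≤ ‖G z‖ := by
          refine le_trans (le_of_eq ?_) hz2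
          rw [hη']
          field_simp
          ring
        have hGz : G z ≠ 0 ∨ c = 0 := by
          by_cases hc0 : c = 0
          · exact Or.inr hc0
          · left
            have : 0 < c := lt_of_le_of_ne hc (Ne.symm hc0)
            have h5 : 0 < ‖G z‖ := lt_of_lt_of_le (by positivity) hz4
            exact norm_pos_iff.mp h5
        rcases hGz with hGz | hc0
        · set t : 𝕜 := (∑ k, l k * p k) / G z with ht
          refine ⟨F (t • z), ⟨t • z, ?_, rfl⟩, ?_⟩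
          · rw [mem_closedBall_zero_iff, norm_smul]
            have h6 : ‖t‖ ≤ c + η / 2 := by
              rw [ht, norm_div, div_le_iff₀ (norm_pos_iff.mpr hGz)]
              refine h1.trans ?_
              have h7 : ‖G‖ * c ≤ ‖G z‖ * (c + η / 2) := by
                rwa [div_le_iff₀ (by positivity)] at hz4
              linarith
            calc ‖t‖ * ‖z‖ ≤ (c + η / 2) * 1 := by gcongr
              _ = c + η / 2 := mul_one _
          · have h8 : ∑ k, l k * F (t • z) k = G (t • z) := by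
              rw [hGx]
              rfl
            rw [h8, map_smul, smul_eq_mul, ht, div_mul_cancel₀ _ hGz]
        · refine ⟨F 0, ⟨0, by simp; positivity, rfl⟩, ?_⟩
          rw [hc0, zero_mul] at h1
          rw [norm_le_zero_iff.mp h1]
          simp
  -- correct by a bounded right inverse
  set W : Submodule 𝕜 (κ → 𝕜) := LinearMap.range F.toLinearMap with hW
  have hWcl : IsClosed (W : Set (κ → 𝕜)) := W.closed_of_finiteDimensional
  obtain ⟨s, hs⟩ := F.toLinearMap.rangeRestrict.exists_rightInverse_of_surjective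
    (LinearMap.range_rangeRestrict _)
  let s' : W →L[𝕜] V := s.toContinuousLinearMap
  have hs' : ∀ w : W, F (s' w) = (w : κ → 𝕜) := by
    intro w
    have := LinearMap.congr_fun hs w
    exact congrArg Subtype.val this
  have hpW : p ∈ W := by
    have h1 : F '' Metric.closedBall 0 (c + η / 2) ⊆ W := by
      rintro _ ⟨x, -, rfl⟩
      exact ⟨x, rfl⟩
    exact closure_minimal h1 hWcl hcl
  set δ : ℝ := η / (2 * (‖s'‖ + 1)) with hδ
  have hδ0 : 0 < δ := by positivity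
  obtain ⟨q, ⟨x, hx, rfl⟩, hq⟩ := Metric.mem_closure_iff.mp hcl δ hδ0
  have hxW : p - F x ∈ W := W.sub_mem hpW ⟨x, rfl⟩
  refine ⟨x + s' ⟨p - F x, hxW⟩, ?_, ?_⟩
  · have h1 : ‖s' ⟨p - F x, hxW⟩‖ ≤ ‖s'‖ * δ := by
      refine (s'.le_opNorm _).trans ?_
      gcongr
      have : ‖(⟨p - F x, hxW⟩ : W)‖ = ‖p - F x‖ := rfl
      rw [this, ← dist_eq_norm]
      exact hq.le
    have h2 : ‖s'‖ * δ ≤ η / 2 := by
      rw [hδ, mul_div_assoc', div_le_div_iff₀ (by positivity) (by positivity)]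
      nlinarith [norm_nonneg s']
    have h3 : ‖x‖ ≤ c + η / 2 := by simpa using hx
    calc ‖x + s' ⟨p - F x, hxW⟩‖ ≤ ‖x‖ + ‖s' ⟨p - F x, hxW⟩‖ := norm_add_le _ _
      _ ≤ (c + η / 2) + η / 2 := by linarith
      _ = c + η := by ring
  · intro k
    rw [← hF, map_add, hs']
    simp

/-- A finite subset of the unit ball of a finite-dimensional space that norms all operators up to a
factor of two. -/
theorem exists_net (E : Type*) [NormedAddCommGroup E] [NormedSpace 𝕜 E] [FiniteDimensional 𝕜 E] :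
    ∃ (t : Finset E), (∀ x ∈ t, ‖x‖ ≤ 1) ∧ ∀ (Z : Type u) [NormedAddCommGroup Z] [NormedSpace 𝕜 Z]
      (S : E →L[𝕜] Z) (c : ℝ), 0 ≤ c → (∀ x ∈ t, ‖S x‖ ≤ c) → ‖S‖ ≤ 2 * c := by
  haveI : ProperSpace E := FiniteDimensional.proper_rclike 𝕜 E
  obtain ⟨t, ht1, ht2, ht3⟩ := (isCompact_closedBall (0 : E) 1).finite_cover_balls
    (e := 1 / 2) (by norm_num)
  refine ⟨ht2.toFinset, fun x hx => ?_, ?_⟩
  · have := ht1 (ht2.mem_toFinset.mp hx)
    simpa using this
  · intro Z _ _ S c hc hS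
    have h1 : ∀ x : E, ‖x‖ ≤ 1 → ‖S x‖ ≤ c + ‖S‖ / 2 := by
      intro x hx
      have h2 := ht3 (show x ∈ Metric.closedBall (0 : E) 1 by simpa using hx)
      simp only [Set.mem_iUnion, exists_prop] at h2
      obtain ⟨y, hy, hxy⟩ := h2
      have h3 : ‖S (x - y)‖ ≤ ‖S‖ * (1 / 2) := by
        refine (S.le_opNorm _).trans ?_
        gcongr
        rw [← dist_eq_norm]
        exact (Metric.mem_ball.mp hxy).le
      calc ‖S x‖ = ‖S y + S (x - y)‖ := by rw [← map_add]; congr 2; abel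
        _ ≤ ‖S y‖ + ‖S (x - y)‖ := norm_add_le _ _
        _ ≤ c + ‖S‖ * (1 / 2) := add_le_add (hS y (ht2.mem_toFinset.mpr hy)) h3
        _ = c + ‖S‖ / 2 := by ring
    have h2 : ‖S‖ ≤ c + ‖S‖ / 2 :=
      ContinuousLinearMap.opNorm_le_of_unit_norm (𝕜 := 𝕜) (by positivity)
        (fun x hx => h1 x hx.le)
    linarith

/-- Evaluation of `∑ fᵢ ⊗ vᵢ` is well defined. -/
theorem trace_wd {Y V : Type*} [NormedAddCommGroup Y] [NormedSpace 𝕜 Y] [AddCommGroup V]
    [Module 𝕜 V] {ι : Type*} [Fintype ι] (f : ι → (Y →L[𝕜] 𝕜)) (v : ι → V)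
    (h : ∀ y, ∑ i, f i y • v i = 0) (β : (Y →L[𝕜] 𝕜) →ₗ[𝕜] V →ₗ[𝕜] 𝕜) :
    ∑ i, β (f i) (v i) = 0 := by
  classical
  set W : Submodule 𝕜 V := Submodule.span 𝕜 (Set.range v) with hW
  haveI : FiniteDimensional 𝕜 W := FiniteDimensional.span_of_finite 𝕜 (Set.finite_range v)
  set b := Module.finBasis 𝕜 W with hb
  let v' : ι → W := fun i => ⟨v i, Submodule.subset_span ⟨i, rfl⟩⟩
  have h1 : ∀ y, ∑ i, f i y • v' i = 0 := by
    intro y
    apply Subtype.ext
    push_cast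
    exact h y
  have h2 : ∀ j, ∑ i, b.repr (v' i) j • f i = 0 := by
    intro j
    ext y
    have h3 := congrArg (fun w => b.repr w j) (h1 y)
    simp only [map_sum, map_smul, map_zero, Finsupp.coe_zero, Pi.zero_apply,
      Finsupp.coe_finset_sum, Finset.sum_apply, Finsupp.coe_smul, Pi.smul_apply] at h3
    simp only [ContinuousLinearMap.sum_apply, ContinuousLinearMap.smul_apply,
      ContinuousLinearMap.zero_apply]
    rw [← h3]
    exact Finset.sum_congr rfl fun i _ => by simp [mul_comm]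
  have h4 : ∀ i, v i = ∑ j, b.repr (v' i) j • (b j : V) := by
    intro i
    have h5 := congrArg (Subtype.val) (b.sum_repr (v' i))
    push_cast at h5
    exact h5.symm
  calc ∑ i, β (f i) (v i) = ∑ i, ∑ j, b.repr (v' i) j • β (f i) (b j : V) := by
        refine Finset.sum_congr rfl fun i _ => ?_
        conv_lhs => rw [h4 i]
        rw [map_sum]
        simp
    _ = ∑ j, β (∑ i, b.repr (v' i) j • f i) (b j : V) := by
        rw [Finset.sum_comm]
        refine Finset.sum_congr rfl fun j _ => ?_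
        rw [map_sum, LinearMap.sum_apply]
        simp
    _ = 0 := by
        simp [h2]

/-- Two representations of the same operator have the same trace. -/
theorem trace_wd₂ {Y V : Type*} [NormedAddCommGroup Y] [NormedSpace 𝕜 Y] [AddCommGroup V]
    [Module 𝕜 V] {ι κ : Type*} [Fintype ι] [Fintype κ] (f : ι → (Y →L[𝕜] 𝕜)) (v : ι → V)
    (g : κ → (Y →L[𝕜] 𝕜)) (w : κ → V)
    (h : ∀ y, ∑ i, f i y • v i = ∑ k, g k y • w k) (β : (Y →L[𝕜] 𝕜) →ₗ[𝕜] V →ₗ[𝕜] 𝕜) :
    ∑ i, β (f i) (v i) = ∑ k, β (g k) (w k) := by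
  have h1 := trace_wd (Sum.elim f g) (Sum.elim v (fun k => -w k)) (by
    intro y
    simp [Fintype.sum_sum_type, h y]) β
  simp only [Fintype.sum_sum_type, Sum.elim_inl, Sum.elim_inr, map_neg,
    Finset.sum_neg_distrib] at h1
  exact add_neg_eq_zero.mp h1

/-- Evaluation pairing `⟨f, y''⟩ = y'' f`. -/
noncomputable def evPair (Y : Type*) [NormedAddCommGroup Y] [NormedSpace 𝕜 Y] :
    (Y →L[𝕜] 𝕜) →ₗ[𝕜] ((Y →L[𝕜] 𝕜) →L[𝕜] 𝕜) →ₗ[𝕜] 𝕜 :=
  LinearMap.mk₂ 𝕜 (fun f y'' => y'' f) (by intros; simp) (by intros; simp) (by intros; simp)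
    (by intros; simp)

theorem evPair_apply (Y : Type*) [NormedAddCommGroup Y] [NormedSpace 𝕜 Y] (f : Y →L[𝕜] 𝕜)
    (y'' : (Y →L[𝕜] 𝕜) →L[𝕜] 𝕜) : evPair Y f y'' = y'' f := rfl

/-- A weak form of the principle of local reflexivity. -/
theorem plr {E : Type u} [NormedAddCommGroup E] [NormedSpace 𝕜 E] [FiniteDimensional 𝕜 E]
    {Z : Type u} [NormedAddCommGroup Z] [NormedSpace 𝕜 Z]
    (T : E →L[𝕜] ((Z →L[𝕜] 𝕜) →L[𝕜] 𝕜)) {κ : Type*} [Fintype κ] (z' : κ → (Z →L[𝕜] 𝕜)) :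
    ∃ S : E →L[𝕜] Z, ‖S‖ ≤ 3 * ‖T‖ ∧ ∀ e k, z' k (S e) = T e (z' k) := by
  classical
  by_cases hT : T = 0
  · exact ⟨0, by simp, by simp [hT]⟩
  have hT0 : 0 < ‖T‖ := norm_pos_iff.mpr hT
  obtain ⟨t, ht1, ht2⟩ := exists_net (𝕜 := 𝕜) E
  set b := Module.finBasis 𝕜 E with hb
  let f : κ × Fin (Module.finrank 𝕜 E) → ((E →L[𝕜] Z) →L[𝕜] 𝕜) := fun q =>
    (z' q.1) ∘L (ContinuousLinearMap.apply 𝕜 Z (b q.2))
  have hf : ∀ q S, f q S = z' q.1 (S (b q.2)) := fun q S => rfl
  let p : κ × Fin (Module.finrank 𝕜 E) → 𝕜 := fun q => T (b q.2) (z' q.1)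
  obtain ⟨S, hS1, hS2⟩ := helly f p (2 * ‖T‖) (by positivity) (by
    intro l
    set τ := ‖∑ k, l k • f k‖ with hτ
    set ζ : Fin (Module.finrank 𝕜 E) → (Z →L[𝕜] 𝕜) := fun j => ∑ k, l (k, j) • z' k with hζ
    -- evaluation at the net
    let a : (E →L[𝕜] Z) →ₗ[𝕜] (t → Z) :=
      { toFun := fun S x => S x
        map_add' := fun _ _ => rfl
        map_smul' := fun _ _ => rfl }
    have ha : ∀ S : E →L[𝕜] Z, ‖S‖ ≤ 2 * ‖a S‖ := by
      intro S
      refine ht2 Z S ‖a S‖ (norm_nonneg _) fun x hx => ?_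
      exact norm_le_pi_norm (a S) ⟨x, hx⟩
    obtain ⟨Φ, hΦ1, hΦ2⟩ := hb_extend a (∑ k, l k • f k).toLinearMap (2 * τ) (by positivity) (by
      intro S
      calc ‖(∑ k, l k • f k) S‖ ≤ τ * ‖S‖ := ContinuousLinearMap.le_opNorm _ _
        _ ≤ τ * (2 * ‖a S‖) := by gcongr; exact ha S
        _ = 2 * τ * ‖a S‖ := by ring)
    have hφ : ∀ S : E →L[𝕜] Z, (∑ k, l k • f k) S = ∑ j, ζ j (S (b j)) := by
      intro S
      simp only [ContinuousLinearMap.sum_apply, ContinuousLinearMap.smul_apply, hf, hζ,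
        smul_eq_mul]
      rw [Fintype.sum_prod_type, Finset.sum_comm]
    set ξ : t → (Z →L[𝕜] 𝕜) := fun m => Φ ∘L ContinuousLinearMap.single 𝕜 (fun _ => Z) m with hξ
    have hdec : ∀ w : t → Z, Φ w = ∑ m, ξ m (w m) := by
      intro w
      conv_lhs => rw [← Finset.univ_sum_single w]
      rw [map_sum]
      rfl
    have hξn : ∑ m, ‖ξ m‖ ≤ 2 * τ := by
      refine sum_norm_le ξ (2 * τ) fun z hz => ?_
      rw [← hdec]
      refine (Φ.le_opNorm _).trans ?_
      have : ‖z‖ ≤ 1 := (pi_norm_le_iff_of_nonneg zero_le_one).mpr hz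
      calc ‖Φ‖ * ‖z‖ ≤ 2 * τ * 1 := by gcongr
        _ = 2 * τ := mul_one _
    -- the representing identity
    have hrank : ∀ (e' : E →L[𝕜] 𝕜), ∑ j, e' (b j) • ζ j = ∑ m : t, e' (m : E) • ξ m := by
      intro e'
      ext z
      have h1 := hΦ2 (e'.smulRight z)
      rw [hdec] at h1
      have h2 : (∑ k, l k • f k).toLinearMap (e'.smulRight z) =
        ∑ j, ζ j ((e'.smulRight z) (b j)) := hφ _
      rw [h2] at h1
      simp only [ContinuousLinearMap.smulRight_apply, map_smul] at h1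
      simp only [ContinuousLinearMap.sum_apply, ContinuousLinearMap.smul_apply]
      rw [← h1]
      refine Finset.sum_congr rfl fun m _ => ?_
      have h3 : (a (e'.smulRight z)) m = e' (m : E) • z := rfl
      rw [h3, map_smul]
    have hTexp : ∀ x : E, T x = ∑ j, b.repr x j • T (b j) := by
      intro x
      conv_lhs => rw [← b.sum_repr x]
      rw [map_sum]
      simp
    have hmain : ∑ q, l q * p q = ∑ m : t, T (m : E) (ξ m) := by
      have h4 : ∑ q, l q * p q = ∑ j, T (b j) (ζ j) := by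
        simp only [p, hζ, map_sum, map_smul, smul_eq_mul]
        rw [Fintype.sum_prod_type, Finset.sum_comm]
      rw [h4]
      have h5 : ∀ m : t, T (m : E) (ξ m) = ∑ j, b.repr (m : E) j * T (b j) (ξ m) := by
        intro m
        rw [hTexp]
        simp
      rw [Finset.sum_congr rfl fun m _ => h5 m, Finset.sum_comm]
      refine Finset.sum_congr rfl fun j _ => ?_
      have h6 := hrank (b.coord j).toContinuousLinearMap
      have h7 : ∑ i, (b.coord j).toContinuousLinearMap (b i) • ζ i = ζ j := by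
        simp only [LinearMap.coe_toContinuousLinearMap', Module.Basis.coord_apply,
          Module.Basis.repr_self]
        rw [Finset.sum_eq_single j]
        · simp
        · intro i _ hij
          simp [hij]
        · simp
      rw [h7] at h6
      rw [h6, map_sum]
      simp
    rw [hmain]
    calc ‖∑ m : t, T (m : E) (ξ m)‖ ≤ ∑ m : t, ‖T‖ * ‖ξ m‖ := by
          refine norm_sum_le_of_le _ fun m _ => ?_
          calc ‖T (m : E) (ξ m)‖ ≤ ‖T (m : E)‖ * ‖ξ m‖ := ContinuousLinearMap.le_opNorm _ _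
            _ ≤ (‖T‖ * 1) * ‖ξ m‖ := by
                gcongr
                refine (T.le_opNorm _).trans ?_
                gcongr
                exact ht1 _ m.2
            _ = ‖T‖ * ‖ξ m‖ := by ring
      _ = ‖T‖ * ∑ m, ‖ξ m‖ := by rw [Finset.mul_sum]
      _ ≤ ‖T‖ * (2 * τ) := by gcongr
      _ = 2 * ‖T‖ * τ := by ring) hT0
  refine ⟨S, by linarith, ?_⟩
  intro e k
  have h1 : ∀ j, z' k (S (b j)) = T (b j) (z' k) := fun j => hS2 (k, j)
  have h2 : (z' k ∘L S).toLinearMap =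
      (((ContinuousLinearMap.apply 𝕜 𝕜 (z' k)).comp T).toLinearMap : E →ₗ[𝕜] 𝕜) := by
    refine b.ext fun j => ?_
    exact h1 j
  exact LinearMap.congr_fun h2 e

end Pool.Agent.H17.Ideals
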